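import Pool.Agent.Lib.MP_72e2e6_nt.Sm.H.Fin

/-!
# MP_72e2e6_nt, `Sm/H/Chr`: the characters of the datum
-/

namespace Pool.Agent.MP72S.HD

open Polynomial Finset Pool.Agent.MP72W Pool.Agent.MP72S.D

private theorem two_ne {F : Type} [Field F] [Finite F] (h : Nat.card F % 4 = 1) :
    (2 : F) ≠ 0 := by
  intro h2
  have h1 : addOrderOf (1 : F) ∣ 2 := by
    rw [addOrderOf_dvd_iff_nsmul_eq_zero, nsmul_one]
    exact_mod_cast h2
  have h3 : addOrderOf (1 : F) ∣ Nat.card F := addOrderOf_dvd_natCard _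
  have h4 : addOrderOf (1 : F) = 1 := by
    rcases (Nat.dvd_prime Nat.prime_two).1 h1 with h5 | h5
    · exact h5
    · rw [h5] at h3
      omega
  exact one_ne_zero (AddMonoid.addOrderOf_eq_one_iff.1 h4)

theorem tChr (hKm : D.S_Km) (hKl : D.S_Kl) (hVl : S_Vl) : S_Chr := by
  intro F _ _ a d u S A hy hu hS hA D
  have h2 : (2 : F) ≠ 0 := two_ne hy.q4
  obtain ⟨m1, -, -, -⟩ := hKm F h2
  have hl := fun w : Pl F => hKl F h2 w.o (A w) (hA.ok w)
  obtain ⟨v1, -, v3, v4, v5, v6⟩ := hVl F A hA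
  have hd : d ≠ 0 := hy.sqf.ne_zero
  have hu0 : u ≠ 0 := by
    rintro rfl
    exact hu ⟨0, by ring⟩
  have hinj : ∀ f : F[X], f ≠ 0 → algebraMap F[X] (RatFunc F) f ≠ 0 := fun f hf h =>
    hf (RatFunc.algebraMap_injective F (by rw [h, map_zero]))
  refine ⟨?_, ?_, ?_, ?_, ?_, ?_, ?_, ?_, ?_, ?_⟩
  · rintro (_ | P) hv
    · exact absurd rfl hv
    · exact m1 _ (hinj _ P.2.1.ne_zero)
  · rintro (_ | P) hv
    · exact absurd rfl hv
    · have h := (hl (some P)).1 (algebraMap F[X] (RatFunc F) P.1) _ (v1 P P.1 P.2.1.ne_zero)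
      rw [v5 P] at h
      exact h.trans (by simp)
  · rintro (_ | P) (_ | P') hv hw hne
    · exact absurd rfl hv
    · exact absurd rfl hv
    · exact absurd rfl hw
    · have h := (hl (some P')).1 (algebraMap F[X] (RatFunc F) P.1) 0
        (v3 P' P.1 P.2.1.ne_zero (v4 P' P fun h => hne (by rw [h])))
      exact h.trans (by simp)
  · rintro (_ | P) hv
    · exact absurd rfl hv
    · exact (hl (some P)).2.1
  · rintro (_ | P) hv
    · exact absurd rfl hv
    · exact (hl none).2.2.2.2 rfl P.1 P.2.1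
  · exact m1 _ (by simpa using hu0)
  · intro v
    have h := (hl v).1 (RatFunc.C u) 0 (v6 v u hu0)
    exact h.trans (by simp)
  · have h := (hl none).2.2.2.1 u hu
    exact h.trans (by simp [dgP, Pl.o])
  · exact m1 _ (hinj _ hd)
  · rintro (_ | P) hv
    · exact absurd ((hS none).2 (Or.inl rfl)) hv
    · have hP : ¬ P.1 ∣ d := fun h =>
        hv ((hS (some P)).2 (Or.inr ⟨P, rfl, dvd_mul_of_dvd_left h _⟩))
      have h := (hl (some P)).1 (algebraMap F[X] (RatFunc F) d) 0 (v3 P d hd hP)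
      exact h.trans (by simp)

end Pool.Agent.MP72S.HD
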