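import Pool.Agent.Lib.MP_72e2e6_nt.Sm.H.Fin

/-!
# MP_72e2e6_nt, `Sm/H/Cm`: commutators are trivial on the constants
-/

namespace Pool.Agent.MP72S.HD

open Polynomial Finset Pool.Agent.MP72W Pool.Agent.MP72S.D

private theorem cmFr (hk : D.S_Kk) (F : Type) [Field F] [Finite F] (σ : GQ F) (c : kF F) :
    ∃ i : ℕ, σ (c : Qf F) = (c : Qf F) ^ Nat.card F ^ i := by
  classical
  obtain ⟨-, -, h3, h4, -⟩ := hk F
  obtain ⟨n, hn, hc⟩ := h3 c
  have hft : Fintype F := Fintype.ofFinite F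
  obtain ⟨p, hp⟩ := CharP.exists F
  obtain ⟨r, hpr, hcard⟩ := FiniteField.card F p
  have hq : Nat.card F = p ^ (r : ℕ) := by rw [Nat.card_eq_fintype_card, hcard]
  have hpp : Fact p.Prime := ⟨hpr⟩
  have hch : CharP (kF F) p := charP_of_injective_algebraMap (algebraMap F (kF F)).injective p
  let φ : kF F →+* kF F := iterateFrobenius (kF F) p r
  have hφ : ∀ x, φ x = x ^ Nat.card F := by
    intro x
    rw [hq]
    exact iterateFrobenius_def (R := kF F) p r x
  let f : (kF F)[X] := ∏ i ∈ Finset.range n, (X - C (c ^ Nat.card F ^ i))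
  have hf : f.map φ = f := by
    obtain ⟨m, rfl⟩ : ∃ m, n = m + 1 := ⟨n - 1, by omega⟩
    have h5 : f.map φ = ∏ i ∈ Finset.range (m + 1), (X - C (c ^ Nat.card F ^ (i + 1))) := by
      simp only [f, Polynomial.map_prod, Polynomial.map_sub, Polynomial.map_X, Polynomial.map_C, hφ,
        ← pow_mul, ← pow_succ]
    rw [h5]
    show _ = ∏ i ∈ Finset.range (m + 1), (X - C (c ^ Nat.card F ^ i))
    rw [Finset.prod_range_succ, Finset.prod_range_succ', hc, pow_zero, pow_one]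
  have hco : ∀ k, (f.coeff k) ^ Nat.card F = f.coeff k := by
    intro k
    have h6 := congrArg (fun g => coeff g k) hf
    simp only [coeff_map, hφ] at h6
    exact h6
  have hfix : ∀ k, σ (algebraMap (kF F) (Qf F) (f.coeff k)) =
      algebraMap (kF F) (Qf F) (f.coeff k) := by
    intro k
    obtain ⟨a, ha⟩ := h4 _ (hco k)
    show σ ((f.coeff k : kF F) : Qf F) = ((f.coeff k : kF F) : Qf F)
    rw [ha]
    exact σ.commutes _
  have hroot : eval c f = 0 := by
    show eval c (∏ i ∈ Finset.range n, (X - C (c ^ Nat.card F ^ i))) = 0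
    rw [eval_prod]
    apply Finset.prod_eq_zero (Finset.mem_range.2 hn)
    simp
  have h7 : eval (σ (c : Qf F)) (f.map (algebraMap (kF F) (Qf F))) = 0 := by
    have h8 : (f.map (algebraMap (kF F) (Qf F))).map (σ : Qf F →+* Qf F) =
        f.map (algebraMap (kF F) (Qf F)) := by
      ext1 k
      rw [coeff_map, coeff_map]
      exact hfix k
    rw [← h8]
    have h9 : eval (σ (c : Qf F)) ((f.map (algebraMap (kF F) (Qf F))).map (σ : Qf F →+* Qf F)) =
        σ (eval (c : Qf F) (f.map (algebraMap (kF F) (Qf F)))) := by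
      rw [eval_map]
      exact eval₂_at_apply (σ : Qf F →+* Qf F) (c : Qf F)
    rw [h9]
    have h10 : eval (c : Qf F) (f.map (algebraMap (kF F) (Qf F))) =
        algebraMap (kF F) (Qf F) (eval c f) := by
      rw [eval_map]
      exact eval₂_at_apply _ _
    rw [h10, hroot, map_zero, map_zero]
  have h11 : f.map (algebraMap (kF F) (Qf F)) =
      ∏ i ∈ Finset.range n, (X - C ((c : Qf F) ^ Nat.card F ^ i)) := by
    simp only [f, Polynomial.map_prod, Polynomial.map_sub, Polynomial.map_X, Polynomial.map_C]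
    apply Finset.prod_congr rfl
    intro i _
    rw [map_pow (algebraMap (kF F) (Qf F))]
    rfl
  rw [h11, eval_prod, Finset.prod_eq_zero_iff] at h7
  obtain ⟨i, -, hi⟩ := h7
  refine ⟨i, ?_⟩
  rw [eval_sub, eval_X, eval_C, sub_eq_zero] at hi
  exact hi

/-- **Cm**. Commutators are trivial on the constants. -/
theorem tCm (hk : D.S_Kk) : S_Cm := by
  intro F _ _ σ τ
  have hcomm : ∀ c : kF F, σ (τ (c : Qf F)) = τ (σ (c : Qf F)) := by
    intro c
    obtain ⟨i, hi⟩ := cmFr hk F σ c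
    obtain ⟨j, hj⟩ := cmFr hk F τ c
    rw [hi, hj, map_pow, map_pow, hi, hj, ← pow_mul, ← pow_mul, mul_comm]
  have hst : ∀ (ρ : GQ F) (c : kF F), ρ (c : Qf F) ∈ kF F := by
    intro ρ c
    obtain ⟨i, hi⟩ := cmFr hk F ρ c
    rw [hi]
    exact pow_mem c.2 _
  intro c
  show σ (τ (σ⁻¹ (τ⁻¹ (c : Qf F)))) = (c : Qf F)
  have h1 : τ⁻¹ (c : Qf F) ∈ kF F := hst _ c
  have h2 : σ⁻¹ (τ⁻¹ (c : Qf F)) ∈ kF F := hst _ ⟨_, h1⟩
  have h3 := hcomm ⟨_, h2⟩
  refine h3.trans ?_
  show τ (σ (σ⁻¹ (τ⁻¹ (c : Qf F)))) = (c : Qf F)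
  have h4 : σ (σ⁻¹ (τ⁻¹ (c : Qf F))) = τ⁻¹ (c : Qf F) := by
    show (σ * σ⁻¹) (τ⁻¹ (c : Qf F)) = _
    rw [mul_inv_cancel]
    rfl
  rw [h4]
  show (τ * τ⁻¹) (c : Qf F) = _
  rw [mul_inv_cancel]
  rfl

end Pool.Agent.MP72S.HD
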