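import Pool.Agent.Lib.MP_72e2e6_nt.Sm.H.Fin

/-!
# MP_72e2e6_nt, `Sm/H/Cnc`: from `Dk z L = T` to finiteness
-/

namespace Pool.Agent.MP72S.HD

open Polynomial Finset Pool.Agent.MP72W Pool.Agent.MP72S.D

section core

variable {F : Type} [Field F]

private theorem cnc_ndvd {a : Fin 3 → F[X]} {P : F[X]}
    (h : ¬ P ∣ (a 0 - a 1) * (a 0 - a 2) * (a 1 - a 2)) :
    ∀ i j : Fin 3, i ≠ j → ¬ P ∣ a i - a j := by
  have h01 : ¬ P ∣ a 0 - a 1 := fun hh => h (Dvd.dvd.mul_right (Dvd.dvd.mul_right hh _) _)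
  have h02 : ¬ P ∣ a 0 - a 2 := fun hh => h (Dvd.dvd.mul_right (Dvd.dvd.mul_left hh _) _)
  have h12 : ¬ P ∣ a 1 - a 2 := fun hh => h (Dvd.dvd.mul_left hh _)
  intro i j hij
  fin_cases i <;> fin_cases j
  · exact absurd rfl hij
  · exact h01
  · exact h02
  · exact fun hh => h01 ((dvd_sub_comm).1 hh)
  · exact absurd rfl hij
  · exact h12
  · exact fun hh => h02 ((dvd_sub_comm).1 hh)
  · exact fun hh => h12 ((dvd_sub_comm).1 hh)
  · exact absurd rfl hij

private theorem cnc_zero {P x : F[X]} (h : ¬ P ∣ x) : multiplicity P x = 0 :=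
  multiplicity_eq_zero.2 h

private theorem cnc_sqf {d P : F[X]} (hd : Squarefree d) (hP : Irreducible P) (h : P ∣ d) :
    multiplicity P d = 1 := by
  refine multiplicity_eq_of_dvd_of_not_dvd (by rwa [pow_one]) fun h2 => ?_
  rw [pow_succ, pow_one] at h2
  exact hP.not_isUnit (hd P h2)

private theorem cnc_mul {P x y : F[X]} (hP : Irreducible P) (hx : x ≠ 0) (hy : y ≠ 0) :
    multiplicity P (x * y) = multiplicity P x + multiplicity P y :=
  multiplicity_mul hP.prime (FiniteMultiplicity.of_not_isUnit hP.not_isUnit (mul_ne_zero hx hy))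

private theorem cnc_prod {ι : Type} [Fintype ι] (R : ι → {P : F[X] // P.Monic ∧ Irreducible P})
    (P : {P : F[X] // P.Monic ∧ Irreducible P}) (h : P.1 ∣ ∏ k, (R k).1) : ∃ k, R k = P := by
  obtain ⟨k, -, hk⟩ := (P.2.2.prime.dvd_finsetProd_iff _).1 h
  refine ⟨k, Subtype.ext ?_⟩
  have := (P.2.2.associated_of_dvd (R k).2.2 hk)
  exact (eq_of_monic_of_associated P.2.1 (R k).2.1 this).symm

private theorem cnc_one {ι : Type} [Fintype ι] (R : ι → {P : F[X] // P.Monic ∧ Irreducible P})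
    (hR : Function.Injective R) {d : F[X]} (hd : d ≠ 0) (k : ι) (h : ¬ (R k).1 ∣ d) :
    multiplicity (R k).1 (d * ∏ j, (R j).1) = 1 := by
  classical
  have hP := (R k).2.2
  have h0 : ∀ s : Finset ι, (∏ j ∈ s, (R j).1) ≠ 0 := fun s =>
    Finset.prod_ne_zero_iff.2 fun j _ => (R j).2.2.ne_zero
  rw [cnc_mul hP hd (h0 _), cnc_zero h, zero_add,
    ← Finset.mul_prod_erase univ (fun j => (R j).1) (mem_univ k), cnc_mul hP hP.ne_zero (h0 _),
    multiplicity_self, cnc_zero]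
  intro hh
  obtain ⟨j, hj, hj'⟩ := (hP.prime.dvd_finsetProd_iff _).1 hh
  have e : R j = R k :=
    Subtype.ext (eq_of_monic_of_associated (R k).2.1 (R j).2.1
      (hP.associated_of_dvd (R j).2.2 hj')).symm
  exact Finset.ne_of_mem_erase hj (hR e)

end core

theorem tCnc : MP72S.S.S_Plt → MP72S.S.S_Main → S_Ax → S_Okt → S_GO → S_Irf → S_Cnc := by
  intro hPlt hMain hAx hOkt hGO hIrf F _ _ a d u S A hy hu hS hA r n hadm R hR L hL hDk
  have hd0 : d ≠ 0 := by
    rintro rfl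
    exact not_squarefree_zero hy.sqf
  have hR0 : (∏ k, (R k).1) ≠ 0 := Finset.prod_ne_zero_iff.2 fun j _ => (R j).2.2.ne_zero
  have hD0 : d * ∏ k, (R k).1 ≠ 0 := mul_ne_zero hd0 hR0
  have hir := (hIrf F a d A hy hA).2.2 S
  have hRi : Function.Injective R := fun i j h => hR.2 (by simp only [h])
  have hRS : ∀ k, (some (R k) : Pl F) ∉ S := fun k => ((hir.1 _ _).1 (hR.1 k)).2
  have hRn : ∀ k, (R k).1.natDegree = n k := by
    intro k
    obtain ⟨P, hP, hP'⟩ := ((hir.1 _ _).1 (hR.1 k)).1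
    rw [Option.some.injEq] at hP
    rw [hP, hP']
  have hdeg : (d * ∏ k, (R k).1).natDegree = d.natDegree + ∑ i, n i := by
    rw [natDegree_mul hd0 hR0, natDegree_prod _ _ fun j _ => (R j).2.2.ne_zero]
    congr 1
    exact Finset.sum_congr rfl fun k _ => hRn k
  obtain ⟨p1, p2, p3⟩ := hPlt F a (d * ∏ k, (R k).1) hy.inj hD0
  -- the places in the range
  have hpl : ∀ w : Pl F, IsPl w.o (A w).av := fun w => (hA.ok w).pl
  have hbad : ∀ P : {P : F[X] // P.Monic ∧ Irreducible P}, (some P : Pl F) ∉ S →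
      ¬ P.1 ∣ bad a d := fun P h hh => h ((hS _).2 (Or.inr ⟨P, rfl, hh⟩))
  have hne : ∀ i : Fin 3, ∃ j, j ≠ i := by decide
  have key : (fun i => (algebraMap F[X] (RatFunc F) d * ∏ k, piP (some (R k) : Pl F)) * aR a i) =
      fun i => algebraMap F[X] (RatFunc F) (d * ∏ k, (R k).1) *
        algebraMap F[X] (RatFunc F) (a i) := by
    funext i
    rw [map_mul, map_prod]
    rfl
  have key2 : (fun i => (algebraMap F[X] (RatFunc F) d * ∏ k, piP (some (R k) : Pl F)) * aR a i) =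
      fun i => algebraMap F[X] (RatFunc F) ((d * ∏ k, (R k).1) * a i) := by
    rw [key]
    funext i
    rw [map_mul _ (d * ∏ k, (R k).1) (a i)]
  rw [← key2]
  refine hMain F (aR a) (Qf F) (Pl F) (Fin (r + 1)) (DD F a d u S A) (fun w => (A w).av) piP
    (algebraMap F[X] (RatFunc F) d) (hGO F a d u S A hy hA) (hAx F a d u S A hy hu hS hA).1
    (fun i => some (R i)) (hOkt F a d u S A hy hS hA r n hadm _ hR) ?_ ?_ L hL hDk.le
  · rintro v ⟨j, rfl⟩
    rw [key]
    rcases j with ⟨s, hs⟩ | k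
    · change MP72S.S.Tame (A s).av _
      rcases (hS s).1 hs with rfl | ⟨P, rfl, hP⟩
      · refine p2 _ (hpl none) ?_
        rw [hdeg]
        exact hadm
      · refine p1 P.1 _ (hpl (some P)) ?_
        have hnd : ¬ P.1 ∣ ∏ k, (R k).1 := by
          intro hh
          obtain ⟨k, hk⟩ := cnc_prod R P hh
          exact hRS k (hk ▸ hs)
        have hm : multiplicity P.1 (d * ∏ k, (R k).1) = multiplicity P.1 d := by
          rw [cnc_mul P.2.2 hd0 hR0, cnc_zero hnd, add_zero]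
        rw [hm]
        by_cases hb : P.1 ∣ (a 0 - a 1) * (a 0 - a 2) * (a 1 - a 2)
        · exact hy.tame P.1 P.2.2 hb
        · have hPd : P.1 ∣ d := (P.2.2.prime.dvd_or_dvd hP).resolve_right hb
          intro i
          obtain ⟨j, hj⟩ := hne i
          refine ⟨j, hj, ?_⟩
          rw [cnc_sqf hy.sqf P.2.2 hPd,
            cnc_zero (cnc_ndvd hb i j (Ne.symm hj))]
          exact odd_one
    · change MP72S.S.Tame (A (some (R k))).av _
      refine p1 (R k).1 _ (hpl (some (R k))) ?_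
      have hb := hbad (R k) (hRS k)
      have hb1 : ¬ (R k).1 ∣ d := fun hh => hb (Dvd.dvd.mul_right hh _)
      have hb2 : ¬ (R k).1 ∣ (a 0 - a 1) * (a 0 - a 2) * (a 1 - a 2) :=
        fun hh => hb (Dvd.dvd.mul_left hh _)
      intro i
      obtain ⟨j, hj⟩ := hne i
      refine ⟨j, hj, ?_⟩
      rw [cnc_one R hRi hd0 k hb1, cnc_zero (cnc_ndvd hb2 i j (Ne.symm hj))]
      exact odd_one
  · intro v hv
    rw [key]
    have hvS : v ∉ S := fun h => hv ⟨Sum.inl ⟨v, h⟩, rfl⟩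
    rcases v with _ | P
    · exact absurd ((hS none).2 (Or.inl rfl)) hvS
    · have hb := hbad P hvS
      have hb1 : ¬ P.1 ∣ d := fun hh => hb (Dvd.dvd.mul_right hh _)
      have hb2 : ¬ P.1 ∣ (a 0 - a 1) * (a 0 - a 2) * (a 1 - a 2) :=
        fun hh => hb (Dvd.dvd.mul_left hh _)
      refine p3 P.1 _ (hpl (some P)) (fun hh => ?_) (cnc_ndvd hb2)
      rcases P.2.2.prime.dvd_or_dvd hh with hh | hh
      · exact hb1 hh
      · obtain ⟨k, hk⟩ := cnc_prod R P hh
        exact hv ⟨Sum.inr k, congrArg some hk⟩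

end Pool.Agent.MP72S.HD
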