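import Pool.Agent.Lib.MP_72e2e6_nt.Sm.H.Fin
import Pool.Agent.Lib.MP_72e2e6_nt.Sm.E.Fin

/-!
# MP_72e2e6_nt, `Sm/H`: the target of block E
-/

namespace Pool.Agent.MP72S.HD

theorem tEQ : S_EQ := by
  intro G N P _ _ _ _ D k Q _ _ _ _ _ t q dg rt h
  refine ⟨E.ax2 h, E.uni h, E.rcp h, fun R _ _ i hi hig hir z hz h2 => ?_⟩
  refine E.recG h (fun g r => g • r) i hi (fun x => ?_) (fun g x => Units.ext (hig g x)) z hz h2
  obtain ⟨n, hn⟩ := (hir (i x).toMul).2 ⟨x, rfl⟩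
  exact E.cs_of_pow_one (pow_pos two_pos n) hn

end Pool.Agent.MP72S.HD
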