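import Pool.Agent.Lib.MP_72e2e6_nt.Sm.H.Fin

/-!
# MP_72e2e6_nt, `Sm/H/FinT`: the final theorem
-/

set_option autoImplicit false

namespace Pool.Agent.MP72S.HD

open Polynomial Finset Pool.Agent.MP72W Pool.Agent.MP72S.D

private theorem fin_two {F : Type} [Field F] [Finite F] (h : Nat.card F % 4 = 1) : (2 : F) ≠ 0 := by
  intro h2
  have : Fintype F := Fintype.ofFinite F
  have h3 : ringChar F = 2 := by
    have h4 : ringChar F ∣ 2 := ringChar.dvd (by exact_mod_cast h2)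
    rcases (Nat.dvd_prime Nat.prime_two).1 h4 with h5 | h5
    · have h6 := CharP.ringChar_ne_one (R := F)
      exact absurd h5 h6
    · exact h5
  have h4 := FiniteField.even_card_of_char_two h3
  rw [← Nat.card_eq_fintype_card] at h4
  omega

section

variable {F : Type} [Field F] {r : ℕ}

/-- The polynomials of a tuple of places. -/
private noncomputable def finMp (z : Fin r → Pl F) : Fin r → F[X] := fun i =>
  match z i with
  | none => 0
  | some P => P.1

private theorem finMp_some (R : Fin r → {P : F[X] // P.Monic ∧ Irreducible P}) :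
    finMp (fun i => some (R i)) = fun i => (R i).1 := rfl

private theorem fin_lift {n : Fin r → ℕ} {z : Fin r → Pl F} (hz : ∀ i, z i ∈ SF.Irs F (n i)) :
    ∃ R : Fin r → {P : F[X] // P.Monic ∧ Irreducible P}, z = (fun i => some (R i)) ∧
      ∀ i, (R i).1.natDegree = n i := by
  choose R hR hR' using hz
  exact ⟨R, funext hR, hR'⟩

private theorem fin_inj {n : Fin r → ℕ} : Set.InjOn (finMp (F := F) (r := r))
    {z | ∀ i, z i ∈ SF.Irs F (n i)} := by
  intro z hz z' hz' h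
  obtain ⟨R, rfl, -⟩ := fin_lift hz
  obtain ⟨R', rfl, -⟩ := fin_lift hz'
  rw [finMp_some, finMp_some] at h
  funext i
  exact congrArg some (Subtype.ext (congrFun h i))

private theorem fin_image (n : Fin r → ℕ) :
    tps F n = finMp '' {z | ∀ i, z i ∈ SF.Irs F (n i)} := by
  ext R
  constructor
  · intro hR
    refine ⟨fun i => some ⟨R i, (hR i).1, (hR i).2.1⟩, fun i => ⟨_, rfl, (hR i).2.2⟩, rfl⟩
  · rintro ⟨z, hz, rfl⟩
    obtain ⟨R', rfl, h⟩ := fin_lift hz
    exact fun i => ⟨(R' i).2.1, (R' i).2.2, h i⟩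

private theorem fin_pi {n : Fin r → ℕ} {I : Fin r → Finset (Pl F)}
    (hI : ∀ i, (I i : Set (Pl F)) = SF.Irs F (n i)) :
    {z : Fin r → Pl F | ∀ i, z i ∈ SF.Irs F (n i)} = (Fintype.piFinset I : Set (Fin r → Pl F)) := by
  ext z
  rw [Finset.mem_coe, Fintype.mem_piFinset]
  refine forall_congr' fun i => ?_
  rw [← hI i, Finset.mem_coe]

private theorem fin_card {n : Fin r → ℕ} {I : Fin r → Finset (Pl F)}
    (hI : ∀ i, (I i : Set (Pl F)) = SF.Irs F (n i)) :
    (tps F n).Finite ∧ (tps F n).ncard = ∏ i, #(I i) := by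
  rw [fin_image, fin_inj.ncard_image, fin_pi hI]
  exact ⟨(Finset.finite_toSet _).image _, by rw [Set.ncard_coe_finset, Fintype.card_piFinset]⟩

end

theorem tFin (hLo : D.S_Lo) (hEnd : MP72S.S_End) (hAx : S_Ax) (hAx3 : S_Ax3) (hLv : S_Lv)
    (hIrf : S_Irf) (hCnc : S_Cnc) : S_Fin := by
  intro F _ _ a d hH ε hε
  obtain ⟨A, hA⟩ := hLo F (fin_two hH.q4)
  obtain ⟨⟨S, hS⟩, ⟨u, hu⟩, hirr⟩ := hIrf F a d A hH hA
  obtain ⟨-, ⟨n₁, hn₁⟩, -⟩ := hirr S
  obtain ⟨h1, h2⟩ := hAx F a d u S A hH hu hS hA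
  obtain ⟨E, h3⟩ := hAx3 F a d u S A hH hu hS hA
  have h4 := hLv F a d u S A hH hu hS hA
  obtain ⟨L, hL, r₀, hr₀⟩ := hEnd (DD F a d u S A) E (C.hfU (Qf F)) (SF.Gb F) (irr F S) (Adm a d)
    h1 h2 h3 h4 (ε / 4) (by positivity)
  refine ⟨r₀, fun r hr => ?_⟩
  obtain ⟨N₁, hN₁⟩ := hr₀ r hr
  refine ⟨max N₁ n₁, fun n' hn' => ?_⟩
  obtain ⟨N₂, hN₂⟩ := hN₁ n' fun i => (le_max_left _ _).trans (hn' i)
  refine ⟨max N₂ n₁, fun m hm hodd => ?_⟩
  have hadm : Adm a d r (Fin.snoc n' m : Fin (r + 1) → ℕ) := by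
    unfold Adm
    rw [Fin.sum_snoc]
    exact hodd
  have hmain := hN₂ m ((le_max_left _ _).trans hm) hadm
  have hI : ∀ i, (irr F S ((Fin.snoc n' m : Fin (r + 1) → ℕ) i) : Set (Pl F)) =
      SF.Irs F ((Fin.snoc n' m : Fin (r + 1) → ℕ) i) := by
    intro i
    refine hn₁ _ ?_
    induction i using Fin.lastCases with
    | last => rw [Fin.snoc_last]; exact (le_max_right _ _).trans hm
    | cast i => rw [Fin.snoc_castSucc]; exact (le_max_right _ _).trans (hn' i)
  obtain ⟨hfin, hcard⟩ := fin_card hI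
  refine ⟨hfin, ?_⟩
  rw [hcard]
  push_cast
  have he : (1 - ε) = 1 - 4 * (ε / 4) := by ring
  rw [he]
  refine hmain.trans ?_
  have hle : ({z ∈ tup fun i => irr F S ((Fin.snoc n' m : Fin (r + 1) → ℕ) i) |
        (DD F a d u S A).Dk z L = (DD F a d u S A).T (Fin (r + 1))}.ncard) ≤
      {R ∈ tps F (Fin.snoc n' m : Fin (r + 1) → ℕ) |
        Finite (C.Wa fun i => algebraMap F[X] (RatFunc F) ((d * ∏ k, R k) * a i)).toAffine.Point ∧
        ShaTwoFin (C.Wa fun i => algebraMap F[X] (RatFunc F) ((d * ∏ k, R k) * a i))}.ncard := by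
    have hmem : ∀ z ∈ {z ∈ tup fun i => irr F S ((Fin.snoc n' m : Fin (r + 1) → ℕ) i) |
        (DD F a d u S A).Dk z L = (DD F a d u S A).T (Fin (r + 1))},
        z ∈ {z : Fin (r + 1) → Pl F | ∀ i, z i ∈ SF.Irs F ((Fin.snoc n' m : Fin (r + 1) → ℕ) i)} := by
      intro z hz i
      rw [← hI i, Finset.mem_coe]
      exact hz.1.1 i
    refine Set.ncard_le_ncard_of_injOn finMp ?_ (fin_inj.mono hmem) (hfin.subset (Set.sep_subset _ _))
    intro z hz
    refine ⟨?_, ?_⟩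
    · rw [fin_image]
      exact ⟨z, hmem z hz, rfl⟩
    · obtain ⟨R, rfl, -⟩ := fin_lift (hmem z hz)
      exact hCnc F a d u S A hH hu hS hA r _ hadm R hz.1 L hL hz.2
  exact_mod_cast hle

end Pool.Agent.MP72S.HD
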