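import Pool.Agent.Lib.MP_72e2e6_nt.Sm.H.Spec

namespace Pool.Agent.MP72S

open Finset

private theorem inj2_pair {P ι : Type} [Fintype ι] [DecidableEq ι] [DecidableEq P]
    (S : ι → Finset P) (i j : ι) (hij : i ≠ j) :
    #((Fintype.piFinset S).filter (fun z => z i = z j)) * #(S i) ≤ ∏ i, #(S i) := by
  rw [← Fintype.card_piFinset, ← card_product]
  refine card_le_card_of_injOn (fun p => Function.update p.1 i p.2) ?_ ?_
  · rintro ⟨z, a⟩ hp
    have hp' := mem_product.1 (mem_coe.1 hp)
    have hz := Fintype.mem_piFinset.1 (mem_filter.1 hp'.1).1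
    refine mem_coe.2 (Fintype.mem_piFinset.2 fun l => ?_)
    show Function.update z i a l ∈ S l
    by_cases hl : l = i
    · subst hl
      rw [Function.update_self]
      exact hp'.2
    · rw [Function.update_of_ne hl]
      exact hz l
  · rintro ⟨z, a⟩ hp ⟨z', a'⟩ hp' h
    have hz := (mem_filter.1 (mem_product.1 (mem_coe.1 hp)).1).2
    have hz' := (mem_filter.1 (mem_product.1 (mem_coe.1 hp')).1).2
    have h' : Function.update z i a = Function.update z' i a' := h
    have h1 : a = a' := by
      have h2 := congrFun h' i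
      rwa [Function.update_self, Function.update_self] at h2
    have h3 : ∀ l, l ≠ i → z l = z' l := by
      intro l hl
      have h2 := congrFun h' l
      rwa [Function.update_of_ne hl, Function.update_of_ne hl] at h2
    have h4 : z = z' := by
      ext l
      by_cases hl : l = i
      · rw [hl]
        show z i = z' i
        have e1 : z i = z j := hz
        have e2 : z' i = z' j := hz'
        rw [e1, e2, h3 j (Ne.symm hij)]
      · exact h3 l hl
    rw [h1, h4]

theorem tInj2 : S_Inj2 := by
  classical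
  intro P ι _ _ ε hε
  set c : ℝ := (Fintype.card ι : ℝ) ^ 2 with hc
  obtain ⟨N₁, hN₁⟩ := exists_nat_gt (c / ε)
  refine ⟨N₁ + 1, fun S hS => ?_⟩
  have e1 : tup S = ((Fintype.piFinset S).filter (fun z => Function.Injective z) :
      Finset (ι → P)) := by
    ext z
    simp only [tup, coe_filter, Fintype.mem_piFinset]
  rw [e1]
  refine ⟨finite_toSet _, ?_⟩
  rw [Set.ncard_coe_finset]
  have e2 : #((Fintype.piFinset S).filter (fun z => Function.Injective z)) +
      #((Fintype.piFinset S).filter (fun z => ¬ Function.Injective z)) = ∏ i, #(S i) := by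
    rw [card_filter_add_card_filter_not, Fintype.card_piFinset]
  have e3 : (Fintype.piFinset S).filter (fun z => ¬ Function.Injective z) ⊆
      ((univ : Finset (ι × ι)).filter (fun p => p.1 ≠ p.2)).biUnion
        (fun p => (Fintype.piFinset S).filter (fun z => z p.1 = z p.2)) := by
    intro z hz
    obtain ⟨h1, h2⟩ := mem_filter.1 hz
    rw [Function.Injective] at h2
    push Not at h2
    obtain ⟨i, j, h3, h4⟩ := h2
    exact mem_biUnion.2 ⟨(i, j), mem_filter.2 ⟨mem_univ _, h4⟩, mem_filter.2 ⟨h1, h3⟩⟩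
  set X : ℝ := ∏ i, (#(S i) : ℝ) with hX
  have hX0 : 0 ≤ X := prod_nonneg fun i _ => Nat.cast_nonneg _
  have hN0 : (0 : ℝ) < N₁ + 1 := by positivity
  have e4 : ∀ p ∈ (univ : Finset (ι × ι)).filter (fun p => p.1 ≠ p.2),
      (#((Fintype.piFinset S).filter (fun z => z p.1 = z p.2)) : ℝ) ≤ X / (N₁ + 1) := by
    intro p hp
    have h1 := inj2_pair S p.1 p.2 (mem_filter.1 hp).2
    have h2 : (#((Fintype.piFinset S).filter (fun z => z p.1 = z p.2)) : ℝ) * #(S p.1) ≤ X := by
      rw [hX]
      exact_mod_cast h1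
    rw [le_div_iff₀ hN0]
    refine le_trans (mul_le_mul_of_nonneg_left ?_ (Nat.cast_nonneg _)) h2
    exact_mod_cast hS p.1
  have hXN : 0 ≤ X / (N₁ + 1) := div_nonneg hX0 hN0.le
  have e50 : (#((univ : Finset (ι × ι)).filter (fun p => p.1 ≠ p.2)) : ℝ) ≤ c := by
    have h1 : #((univ : Finset (ι × ι)).filter (fun p => p.1 ≠ p.2)) ≤
        Fintype.card ι ^ 2 := by
      refine (card_filter_le _ _).trans ?_
      rw [card_univ, Fintype.card_prod, pow_two]
    rw [hc, ← Nat.cast_pow]
    exact Nat.cast_le.2 h1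
  have e51 : (#((Fintype.piFinset S).filter (fun z => ¬ Function.Injective z)) : ℝ) ≤
      ∑ p ∈ (univ : Finset (ι × ι)).filter (fun p => p.1 ≠ p.2),
          (#((Fintype.piFinset S).filter (fun z => z p.1 = z p.2)) : ℝ) := by
    rw [← Nat.cast_sum]
    exact Nat.cast_le.2 ((card_le_card e3).trans card_biUnion_le)
  have e52 := sum_le_sum e4
  rw [sum_const, nsmul_eq_mul] at e52
  have e53 := mul_le_mul_of_nonneg_right e50 hXN
  have e5 : (#((Fintype.piFinset S).filter (fun z => ¬ Function.Injective z)) : ℝ) ≤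
      c * (X / (N₁ + 1)) := e51.trans (e52.trans e53)
  have e6 : c * (X / (N₁ + 1)) ≤ ε * X := by
    have h1 : c ≤ ε * (N₁ + 1) := by
      have h2 : c < N₁ * ε := (div_lt_iff₀ hε).1 hN₁
      nlinarith
    rw [mul_div_assoc', div_le_iff₀ hN0]
    nlinarith
  have e7 : (#((Fintype.piFinset S).filter (fun z => Function.Injective z)) : ℝ) +
      #((Fintype.piFinset S).filter (fun z => ¬ Function.Injective z)) = X := by
    rw [hX]
    exact_mod_cast e2
  linarith

end Pool.Agent.MP72S
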