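import Pool.Agent.Lib.MP_72e2e6_nt.Sm.H.Fin

/-!
# MP_72e2e6_nt, `Sm/H`: existence of `S` and `u`, the sets `irr`
-/

set_option autoImplicit false

namespace Pool.Agent.MP72S.HD

open Polynomial Finset Pool.Agent.MP72W Pool.Agent.MP72S.D

private theorem irf_sq (n : ℕ) (hn : 4 ≤ n) : n ^ 2 ≤ 2 ^ n := by
  induction n, hn using Nat.le_induction with
  | base => norm_num
  | succ n hn ih =>
    rw [pow_succ 2 n]
    nlinarith

private theorem irf_S {F : Type} [Field F] (a : Fin 3 → F[X]) (d : F[X]) (h : Hy a d) :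
    ∃ S, Sok a d S := by
  classical
  have hb : bad a d ≠ 0 := by
    unfold bad
    have h01 : a 0 - a 1 ≠ 0 := sub_ne_zero.2 (fun h0 => absurd (h.inj h0) (by decide))
    have h02 : a 0 - a 2 ≠ 0 := sub_ne_zero.2 (fun h0 => absurd (h.inj h0) (by decide))
    have h12 : a 1 - a 2 ≠ 0 := sub_ne_zero.2 (fun h0 => absurd (h.inj h0) (by decide))
    exact mul_ne_zero h.sqf.ne_zero (mul_ne_zero (mul_ne_zero h01 h02) h12)
  have hfin : {w : Pl F | w = none ∨ ∃ P, w = some P ∧ P.1 ∣ bad a d}.Finite := by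
    have h1 : {P : F[X] | P.Monic ∧ Irreducible P ∧ P ∣ bad a d}.Finite := by
      refine Set.Finite.subset
        ((UniqueFactorizationMonoid.normalizedFactors (bad a d)).toFinset.finite_toSet) ?_
      rintro P ⟨hm, hi, hd⟩
      obtain ⟨q, hq, hPq⟩ :=
        UniqueFactorizationMonoid.exists_mem_normalizedFactors_of_dvd hb hi hd
      have hq1 := UniqueFactorizationMonoid.normalize_normalized_factor q hq
      have hP1 : normalize P = P := hm.normalize_eq_self
      have h2 : normalize P = normalize q := normalize_eq_normalize_iff_associated.2 hPq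
      rw [hP1, hq1] at h2
      rw [h2, Finset.mem_coe, Multiset.mem_toFinset]
      exact hq
    have h2 : {P : {P : F[X] // P.Monic ∧ Irreducible P} | P.1 ∣ bad a d}.Finite := by
      refine Set.Finite.of_finite_image (f := Subtype.val) (h1.subset ?_)
        Subtype.val_injective.injOn
      rintro _ ⟨P, hP, rfl⟩
      exact ⟨P.2.1, P.2.2, hP⟩
    refine Set.Finite.subset ((h2.image some).insert none) ?_
    rintro w (rfl | ⟨P, rfl, hP⟩)
    · exact Set.mem_insert _ _
    · exact Set.mem_insert_of_mem _ ⟨P, hP, rfl⟩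
  refine ⟨hfin.toFinset, fun w => ?_⟩
  rw [Set.Finite.mem_toFinset, Set.mem_setOf_eq]

/-- **Irf.** -/
theorem tIrf (hIrc : SF.S_Irc) : S_Irf := by
  classical
  intro F _ _ a d A hH hA
  obtain ⟨hfin, n₀, hn₀⟩ := hIrc F A hA
  refine ⟨irf_S a d hH, ?_, fun S => ?_⟩
  · haveI : Fintype F := Fintype.ofFinite F
    have h4 := hH.q4
    rw [Nat.card_eq_fintype_card] at h4
    have hc : ringChar F ≠ 2 := by
      intro hc
      have := FiniteField.even_card_iff_char_two.1 hc
      omega
    obtain ⟨u, hu⟩ := FiniteField.exists_nonsquare hc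
    refine ⟨u, ?_⟩
    rintro ⟨b, hb⟩
    exact hu ⟨b, by rw [← hb, sq]⟩
  · have hmem : ∀ n w, w ∈ irr F S n ↔ w ∈ SF.Irs F n ∧ w ∉ S := by
      intro n w
      have hf : {w | w ∈ SF.Irs F n ∧ w ∉ S}.Finite := (hfin n).subset fun w hw => hw.1
      unfold irr
      rw [dif_pos hf, Set.Finite.mem_toFinset, Set.mem_setOf_eq]
    have hn1 : ∃ n₁, ∀ n, n₁ ≤ n → (irr F S n : Set (Pl F)) = SF.Irs F n := by
      refine ⟨S.sup (fun w => dgP w.o) + 1, fun n hn => ?_⟩
      ext w
      rw [Finset.mem_coe, hmem]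
      constructor
      · exact fun h => h.1
      · intro h
        refine ⟨h, fun hS => ?_⟩
        obtain ⟨P, rfl, hP⟩ := h
        have h2 := Finset.le_sup (f := fun w : Pl F => dgP w.o) hS
        have h4 : P.1.natDegree ≤ S.sup (fun w => dgP w.o) := h2
        rw [hP] at h4
        omega
    refine ⟨hmem, hn1, fun m => ?_⟩
    obtain ⟨n₁, hn₁⟩ := hn1
    refine ⟨n₀ + n₁ + 4 + 2 * m, fun n hn => ?_⟩
    have h1 := hn₁ n (by omega)
    have h2 := hn₀ n (by omega)
    have h3 : (SF.Irs F n).ncard = #(irr F S n) := by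
      rw [← h1, Set.ncard_coe_finset]
    rw [h3] at h2
    by_contra hcon
    push Not at hcon
    have hq : 2 ≤ Nat.card F := Finite.one_lt_card
    have hq' : (2 : ℝ) ≤ Nat.card F := by exact_mod_cast hq
    have h4 : (2 : ℝ) ^ n ≤ (Nat.card F : ℝ) ^ n := pow_le_pow_left₀ (by norm_num) hq' n
    have h5 : ((n ^ 2 : ℕ) : ℝ) ≤ ((2 ^ n : ℕ) : ℝ) := by
      exact_mod_cast irf_sq n (by omega)
    push_cast at h5
    have h6 : (#(irr F S n) : ℝ) ≤ m := by exact_mod_cast hcon.le
    have h7 : (2 * m + 1 : ℝ) ≤ n := by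
      have : 2 * m + 1 ≤ n := by omega
      exact_mod_cast this
    have h8 : (0 : ℝ) < n := by
      have : 0 < n := by omega
      exact_mod_cast this
    have h9 : (n : ℝ) * (#(irr F S n) : ℝ) ≤ n * m := mul_le_mul_of_nonneg_left h6 h8.le
    nlinarith

end Pool.Agent.MP72S.HD
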