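import Pool.Agent.Lib.MP_72e2e6_nt.Sm.H.Fin

/-!
# MP_72e2e6_nt, `Sm/H/Lv`: the structure `Lvl`
-/

namespace Pool.Agent.MP72S.HD

open Polynomial Finset Pool.Agent.MP72W Pool.Agent.MP72S.D

private theorem lv_two {F : Type} [Field F] [Finite F] (h : Nat.card F % 4 = 1) :
    (2 : F) ≠ 0 := by
  have hft : Fintype F := Fintype.ofFinite F
  apply Ring.two_ne_zero
  intro h2
  rw [FiniteField.even_card_iff_char_two] at h2
  rw [Nat.card_eq_fintype_card] at h
  omega

/-- **Lv**. The structure `Lvl`. -/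
theorem tLv (rq : D.S_Rq) (kk : D.S_Kk) (spl : SF.S_Spl) (g1 : S_G1) (g2 : S_G2) (g3 : S_G3)
    (irf : S_Irf) (cm : S_Cm) (okt : S_Okt) : S_Lv := by
  intro F _ _ a d u S A hy hu hS hA
  have h2 : (2 : F) ≠ 0 := lv_two hy.q4
  obtain ⟨-, k2, -⟩ := kk F
  obtain ⟨-, -, hirf⟩ := irf F a d A hy hA
  obtain ⟨i1, ⟨n₁, hn₁⟩, i3⟩ := hirf S
  constructor
  case tau =>
    intro v c
    obtain ⟨-, r2, -⟩ := rq F h2 v.o (A v) (hA.ok v)
    exact r2 _ (hA.ok v).tg (c : Qf F) ((k2 _).1 c.2)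
  case com =>
    intro σ τ
    exact cm F σ τ
  case nS =>
    intro n v hv
    exact ((i1 n v).1 hv).2
  case inf => exact i3
  case ok =>
    intro r n hn z hz
    exact okt F a d u S A hy hS hA r n hn z hz
  case spl =>
    intro H hH hHo
    obtain ⟨n₀, hn₀⟩ := spl F h2 A hA H hH hHo
    refine ⟨max n₀ n₁, fun n hn => ?_⟩
    have h3 := hn₁ n ((le_max_right _ _).trans hn)
    have h4 : (({c ∈ irr F S n | (DD F a d u S A).phi c ∈ H} : Set (Pl F))) =
        {w ∈ SF.Irs F n | (A w).rQ (A w).f ∈ H} := by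
      ext w
      constructor
      · rintro ⟨hw, hw2⟩
        refine ⟨?_, hw2⟩
        rw [← h3]
        exact hw
      · rintro ⟨hw, hw2⟩
        refine ⟨?_, hw2⟩
        rw [← h3] at hw
        exact hw
    have h5 : #(irr F S n) = (SF.Irs F n).ncard := by
      rw [← h3, Set.ncard_coe_finset]
    rw [h4, h5]
    exact hn₀ n ((le_max_left _ _).trans hn)
  case g1 => exact g1 F a d u S A hy hu hS hA
  case g2 => exact g2 F a d u S A hy hu hS hA
  case g3 => exact g3 F a d u S A hy hu hS hA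

end Pool.Agent.MP72S.HD
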