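import Pool.Agent.Lib.MP_72e2e6_nt.Sm.H.Fin

/-!
# MP_72e2e6_nt, `Sm/H/Nu`: the valuations of the differences of the roots
-/

namespace Pool.Agent.MP72S.HD

open Polynomial Finset Pool.Agent.MP72W Pool.Agent.MP72S.D

theorem tNu (hPc : D.S_Pc) (hVl : S_Vl) : S_Nu := by
  intro F _ _ a h2 ha A hA
  have hp := fun w : Pl F => hPc F h2 w.o (A w) (hA.ok w)
  obtain ⟨v1, v2, v3, -, -, -⟩ := hVl F A hA
  have he : ∀ i j, C.al (aR a) (Qf F) i - C.al (aR a) (Qf F) j =
      algebraMap (RatFunc F) (Qf F) (algebraMap F[X] (RatFunc F) (a i - a j)) := by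
    intro i j
    unfold C.al aR
    rw [map_sub, map_sub]
  have hne : ∀ i j, i ≠ j → a i - a j ≠ 0 := fun i j hij h => hij (ha (sub_eq_zero.1 h))
  refine ⟨fun w => (hp w).1, ?_, ?_, ?_⟩
  · intro P i j hij
    rw [he]
    exact (hp (some P)).2 _ _ (v1 P _ (hne i j hij))
  · intro i j hij
    rw [he]
    exact (hp none).2 _ _ (v2 _ (hne i j hij))
  · intro P i j hij hP
    rw [he, (hp (some P)).2 _ _ (v3 P _ (hne i j hij) hP)]
    simp

end Pool.Agent.MP72S.HD
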