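import Pool.Agent.Lib.MP_72e2e6_nt.Sm.H.Fin

/-!
# MP_72e2e6_nt, `Sm/H/Okt`: the tuples are admissible
-/

namespace Pool.Agent.MP72S.HD

open Polynomial Finset Pool.Agent.MP72W Pool.Agent.MP72S.D

private theorem okt_two {F : Type} [Field F] [Finite F] (h : Nat.card F % 4 = 1) :
    (2 : F) ≠ 0 := by
  have hft : Fintype F := Fintype.ofFinite F
  apply Ring.two_ne_zero
  intro h2
  rw [FiniteField.even_card_iff_char_two] at h2
  rw [Nat.card_eq_fintype_card] at h
  omega

private theorem okt_mxd {F : Type} [Field F] (a : Fin 3 → F[X]) (i : Fin 3) :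
    ∃ j, j ≠ i ∧ (a i - a j).natDegree = mxd a := by
  have hle : ∀ i j, (a i - a j).natDegree ≤ mxd a := by
    intro i j
    have h1 : (a i - a j).natDegree ≤ univ.sup fun j : Fin 3 => (a i - a j).natDegree :=
      Finset.le_sup (f := fun j : Fin 3 => (a i - a j).natDegree) (Finset.mem_univ j)
    have h2 : (univ.sup fun j : Fin 3 => (a i - a j).natDegree) ≤ mxd a :=
      Finset.le_sup (f := fun i : Fin 3 => univ.sup fun j : Fin 3 => (a i - a j).natDegree)
        (Finset.mem_univ i)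
    exact h1.trans h2
  have hex : ∃ i j, (a i - a j).natDegree = mxd a := by
    obtain ⟨i, -, hi⟩ := Finset.exists_mem_eq_sup (univ : Finset (Fin 3)) univ_nonempty
      (fun i : Fin 3 => univ.sup fun j : Fin 3 => (a i - a j).natDegree)
    obtain ⟨j, -, hj⟩ := Finset.exists_mem_eq_sup (univ : Finset (Fin 3)) univ_nonempty
      (fun j : Fin 3 => (a i - a j).natDegree)
    exact ⟨i, j, by rw [mxd, hi, hj]⟩
  have hj : ∃ j, (a i - a j).natDegree = mxd a := by
    obtain ⟨k, l, hkl⟩ := hex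
    have h1 : (a k - a l).natDegree ≤ max (a i - a l).natDegree (a i - a k).natDegree := by
      have h3 : a k - a l = (a i - a l) - (a i - a k) := by ring
      rw [h3]
      exact natDegree_sub_le _ _
    rcases le_max_iff.1 h1 with h | h
    · exact ⟨l, le_antisymm (hle _ _) (hkl ▸ h)⟩
    · exact ⟨k, le_antisymm (hle _ _) (hkl ▸ h)⟩
  obtain ⟨j, hj⟩ := hj
  by_cases hji : j = i
  · subst hji
    rw [sub_self, natDegree_zero] at hj
    obtain ⟨k, hk⟩ : ∃ k : Fin 3, k ≠ j := exists_ne j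
    refine ⟨k, hk, le_antisymm (hle _ _) ?_⟩
    rw [← hj]
    exact Nat.zero_le _
  · exact ⟨j, hji, hj⟩

private theorem okt_dvd {R : Type} [CommRing R] (a : Fin 3 → R) (i j : Fin 3) (h : i ≠ j) :
    a i - a j ∣ (a 0 - a 1) * (a 0 - a 2) * (a 1 - a 2) := by
  have h01 : a 0 - a 1 ∣ (a 0 - a 1) * (a 0 - a 2) * (a 1 - a 2) :=
    dvd_mul_of_dvd_left (dvd_mul_right _ _) _
  have h02 : a 0 - a 2 ∣ (a 0 - a 1) * (a 0 - a 2) * (a 1 - a 2) :=
    dvd_mul_of_dvd_left (dvd_mul_left _ _) _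
  have h12 : a 1 - a 2 ∣ (a 0 - a 1) * (a 0 - a 2) * (a 1 - a 2) := dvd_mul_left _ _
  have h10 : a 1 - a 0 ∣ (a 0 - a 1) * (a 0 - a 2) * (a 1 - a 2) := by
    rw [← neg_sub (a 0) (a 1), neg_dvd]
    exact h01
  have h20 : a 2 - a 0 ∣ (a 0 - a 1) * (a 0 - a 2) * (a 1 - a 2) := by
    rw [← neg_sub (a 0) (a 2), neg_dvd]
    exact h02
  have h21 : a 2 - a 1 ∣ (a 0 - a 1) * (a 0 - a 2) * (a 1 - a 2) := by
    rw [← neg_sub (a 1) (a 2), neg_dvd]
    exact h12
  fin_cases i <;> fin_cases j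
  exacts [absurd rfl h, h01, h02, h10, absurd rfl h, h12, h20, h21, absurd rfl h]

private theorem okt_odd {m : ℕ} (h : Odd m) : (m : ZMod 2) = 1 := by
  obtain ⟨k, rfl⟩ := h
  push_cast
  have h2 : (2 : ZMod 2) = 0 := rfl
  rw [h2, zero_mul, zero_add]

private theorem okt_neg (x : ZMod 2) : -x = x := by
  revert x
  decide

/-- **Okt**. The tuples are admissible. -/
theorem tOkt (tam : C.S_Tam) (kl : D.S_Kl) (vl : S_Vl) (nu : S_Nu) (irf : S_Irf) : S_Okt := by
  intro F _ _ a d u S A hy hS hA r n hn z hz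
  have h2 : (2 : F) ≠ 0 := okt_two hy.q4
  obtain ⟨-, -, hirf⟩ := irf F a d A hy hA
  obtain ⟨i1, -, -⟩ := hirf S
  obtain ⟨v1, v2, v3, v4, -, -⟩ := vl F A hA
  obtain ⟨p1, p2, p3, p4⟩ := nu F a h2 hy.inj A hA
  have hzP : ∀ i, ∃ P : {P : F[X] // P.Monic ∧ Irreducible P},
      z i = some P ∧ P.1.natDegree = n i := fun i => ((i1 _ _).1 (hz.1 i)).1
  have hzS : ∀ i, z i ∉ S := fun i => ((i1 _ _).1 (hz.1 i)).2
  choose P hP hPn using hzP
  have hd0 : d ≠ 0 := hy.sqf.ne_zero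
  have hP0 : ∀ i, (P i).1 ≠ 0 := fun i => (P i).2.2.ne_zero
  have hchi : ∀ (s : Pl F) (e : ℤ) (f : Fin (r + 1) → ℤ),
      (A s).av (algebraMap F[X] (RatFunc F) d) = (1 / 2 : ℝ) ^ e →
      (∀ i, (A s).av (algebraMap F[X] (RatFunc F) (P i).1) = (1 / 2 : ℝ) ^ (f i)) →
      (DD F a d u S A).chi z ((A s).rQ (A s).t) = (e : ZMod 2) + ∑ i, (f i : ZMod 2) := by
    intro s e f he hf
    obtain ⟨k1, -⟩ := kl F h2 s.o (A s) (hA.ok s)
    have h3 : (DD F a d u S A).chi z ((A s).rQ (A s).t) =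
        hK (algebraMap F[X] (RatFunc F) d) ((A s).rQ (A s).t) +
          ∑ i, hK (piP (z i)) ((A s).rQ (A s).t) := rfl
    rw [h3, k1 _ e he]
    have h4 : ∀ i, hK (piP (z i)) ((A s).rQ (A s).t) = (f i : ZMod 2) := by
      intro i
      rw [hP i]
      exact k1 _ (f i) (hf i)
    rw [Finset.sum_congr rfl (fun i _ => h4 i)]
  have h2Q : (2 : Qf F) ≠ 0 := by
    intro h
    apply h2
    have h3 : algebraMap F (Qf F) 2 = 0 := by rw [map_ofNat]; exact h
    exact (map_eq_zero (algebraMap F (Qf F))).1 h3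
  have hinj : Function.Injective (aR a) := by
    intro i j h
    exact hy.inj (IsFractionRing.injective F[X] (RatFunc F) h)
  have hHyp : C.Hyp (aR a) (Qf F) := ⟨h2Q, hinj⟩
  refine ⟨hz.2, hzS, ?_⟩
  intro s hs Q hQ _
  refine tam (RatFunc F) (aR a) (Qf F) (kF F) _ _ _ _ _ hHyp (p1 s)
    ((DD F a d u S A).chi z ((A s).rQ (A s).t)) ?_ Q hQ
  intro i
  rcases s with _ | s
  · -- infinity
    obtain ⟨j, hji, hj⟩ := okt_mxd a i
    refine ⟨j, hji, -((a i - a j).natDegree : ℤ), p3 i j hji.symm, ?_⟩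
    rw [hchi none (-(d.natDegree : ℤ)) (fun i => -((P i).1.natDegree : ℤ)) (v2 d hd0)
      (fun i => v2 _ (hP0 i)), hj]
    have h5 := okt_odd hn
    rw [← h5]
    push_cast
    simp only [okt_neg, hPn]
    ring
  · -- a finite place
    have hne : ∀ i, s ≠ P i := by
      intro i h
      apply hzS i
      rw [hP i, ← h]
      exact hs
    have hc := hchi (some s) ((multiplicity s.1 d : ℕ) : ℤ) (fun _ => 0) (v1 s d hd0)
      (fun i => v3 s _ (hP0 i) (v4 s (P i) (hne i)))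
    rw [hc]
    by_cases hdvd : s.1 ∣ (a 0 - a 1) * (a 0 - a 2) * (a 1 - a 2)
    · obtain ⟨j, hji, hj⟩ := hy.tame s.1 s.2.2 hdvd i
      refine ⟨j, hji, (multiplicity s.1 (a i - a j) : ℤ), p2 s i j hji.symm, ?_⟩
      rw [← okt_odd hj]
      push_cast
      simp
      ring
    · have hsd : s.1 ∣ d := by
        obtain ⟨P', h3, h4⟩ := ((hS (some s)).1 hs).resolve_left (by simp)
        have h5 : s = P' := Option.some.inj h3
        subst h5
        rcases s.2.2.prime.dvd_or_dvd h4 with h | h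
        · exact h
        · exact absurd h hdvd
      have hm1 : multiplicity s.1 d = 1 := by
        have h6 := (squarefree_iff_emultiplicity_le_one d).1 hy.sqf s.1
        have h7 : emultiplicity s.1 d ≤ 1 := h6.resolve_right s.2.2.not_isUnit
        have h8 : (1 : ℕ∞) ≤ emultiplicity s.1 d := by
          have := pow_dvd_iff_le_emultiplicity (a := s.1) (b := d) (k := 1)
          rw [pow_one] at this
          exact_mod_cast this.1 hsd
        have h9 : emultiplicity s.1 d = 1 := le_antisymm h7 h8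
        exact multiplicity_eq_of_emultiplicity_eq_some (by exact_mod_cast h9)
      obtain ⟨j, hji⟩ : ∃ j : Fin 3, j ≠ i := exists_ne i
      have hnd : ¬ s.1 ∣ a i - a j := by
        exact fun h => hdvd (h.trans (okt_dvd a i j hji.symm))
      refine ⟨j, hji, 0, ?_, ?_⟩
      · rw [p4 s i j hji.symm hnd]
        simp
      · rw [hm1]
        simp

end Pool.Agent.MP72S.HD
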