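import Pool.Agent.Lib.MP_72e2e6_nt.Sm.H.Spec

namespace Pool.Agent.MP72S

open Finset

theorem tStF : S_Bas → S_Dk1 → S_SyF → S_StF := by
  classical
  intro hBas hDk1 hSyF G N P ι _ _ _ _ _ _ D hA K hK
  obtain ⟨-, hfin, -⟩ := hBas D hA
  obtain ⟨d1, -, -, d4, -⟩ := hDk1 (ι := ι) D hA
  set V : Set (D.J ι → N) := Set.pi Set.univ (fun _ => {x : N | 2 ^ 1 • x = 0}) with hV
  have hVf : V.Finite := Set.Finite.pi fun _ => hfin 1
  have hVm : ∀ ν : D.J ι → N, 2 • ν = 0 → ν ∈ V := by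
    intro ν hν j _
    show 2 ^ 1 • ν j = 0
    rw [pow_one]
    exact congrFun hν j
  have hD1 : ∀ z : ι → P, ((D.Dk z 1 : AddSubgroup _) : Set (D.J ι → N)) ⊆ V := by
    intro z ν hν
    exact hVm ν ((d1 z ν).1 hν).2
  have hDK : ∀ z : ι → P, ((D.Dk z K : AddSubgroup _) : Set (D.J ι → N)) ⊆ V := by
    intro z ν hν
    exact hD1 z (d4 z K hK hν)
  constructor
  · -- subgroups of `V`
    have hB : {Δ : AddSubgroup (D.J ι → N) | (Δ : Set (D.J ι → N)) ⊆ V}.Finite := by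
      have h1 : {b : Set (D.J ι → N) | b ⊆ V}.Finite := hVf.finite_subsets
      exact h1.preimage (f := fun Δ : AddSubgroup (D.J ι → N) => (Δ : Set (D.J ι → N)))
        (SetLike.coe_injective.injOn)
    -- functions which vanish outside `V`
    have hW : {g : (D.J ι → N) → ZMod 2 | ∀ ν, ν ∉ V → g ν = 0}.Finite := by
      have : Finite V := hVf
      have h1 : (Set.range (fun (h : V → ZMod 2) (ν : D.J ι → N) =>
        if hν : ν ∈ V then h ⟨ν, hν⟩ else 0)).Finite := Set.finite_range _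
      refine h1.subset ?_
      intro g hg
      refine ⟨fun ν => g ν.1, ?_⟩
      ext ν
      by_cases hν : ν ∈ V
      · simp only [dif_pos hν]
      · simp only [dif_neg hν]
        rw [hg ν hν]
    have hC : {O : Set ((D.J ι → N) → ZMod 2) |
        O ⊆ {g : (D.J ι → N) → ZMod 2 | ∀ ν, ν ∉ V → g ν = 0}}.Finite := hW.finite_subsets
    refine ((hSyF (ι := ι) D hA).prod (hB.prod hC)).subset ?_
    rintro ⟨s1, s2, s3⟩ ⟨z, h1, h2, h3⟩
    refine ⟨⟨z, h1⟩, ?_, ?_⟩
    · show (s2 : Set (D.J ι → N)) ⊆ V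
      have h2' : D.Dk z K = s2 := h2
      rw [← h2']
      exact hDK z
    · show s3 ⊆ _
      have h3' : D.O z K = s3 := h3
      rw [← h3']
      rintro g ⟨ξ, η, -, -, -, h4⟩ ν hν
      exact h4 ν fun h5 => hν (hD1 z h5)
  · refine ⟨V.ncard, fun z => ?_⟩
    have h1 : Nat.card (D.Dk z K) = ((D.Dk z K : AddSubgroup _) : Set (D.J ι → N)).ncard :=
      Nat.card_coe_set_eq _
    rw [h1]
    exact Set.ncard_le_ncard (hDK z) hVf

end Pool.Agent.MP72S
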