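import Pool.Agent.Lib.MP_72e2e6_nt.Sm.H.Spec

/-!
# MP_72e2e6_nt, `Sm/H/Stp`: one step of the potential
-/

namespace Pool.Agent.MP72S

open Finset

private theorem Stp_key {X Z : Type} (Δ : Finset X) (Ts : Finset Z) (R : Z → X → Prop)
    (Tp : X → Prop) [∀ z, DecidablePred (R z)] [DecidablePred Tp]
    (hT : #(Δ.filter Tp) = 4) (e : ℝ) (he : 0 ≤ e)
    (h : ∀ f ∈ Δ, ¬ Tp f → (#(Ts.filter fun z => R z f) : ℝ) ≤ 15 / 16 * #Ts + e)
    (hd : 16 ≤ #Δ) :
    ∑ z ∈ Ts, (#(Δ.filter (R z)) : ℝ) ≤ 61 / 64 * ((#Δ : ℝ) * #Ts) + #Δ * e := by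
  have h1 : ∑ z ∈ Ts, (#(Δ.filter (R z)) : ℝ) = ∑ f ∈ Δ, (#(Ts.filter fun z => R z f) : ℝ) := by
    simp only [card_filter, Nat.cast_sum]
    rw [sum_comm]
  have h2 : ∑ f ∈ Δ, (#(Ts.filter fun z => R z f) : ℝ) ≤
      ∑ f ∈ Δ, if Tp f then (#Ts : ℝ) else 15 / 16 * #Ts + e := by
    refine sum_le_sum fun f hf => ?_
    split_ifs with hTf
    · exact_mod_cast card_filter_le _ _
    · exact h f hf hTf
  have h3 : (∑ f ∈ Δ, if Tp f then (#Ts : ℝ) else 15 / 16 * #Ts + e) =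
      4 * #Ts + ((#Δ : ℝ) - 4) * (15 / 16 * #Ts + e) := by
    rw [sum_ite, sum_const, sum_const, hT, nsmul_eq_mul, nsmul_eq_mul]
    have h4 := card_filter_add_card_filter_not (s := Δ) Tp
    rw [hT] at h4
    have h5 : (#(Δ.filter fun x => ¬ Tp x) : ℝ) = (#Δ : ℝ) - 4 := by
      rw [← h4]
      push_cast
      ring
    rw [h5]
    norm_num
  rw [h1]
  refine h2.trans ?_
  rw [h3]
  have hd' : (16 : ℝ) ≤ #Δ := by exact_mod_cast hd
  have hTs : (0 : ℝ) ≤ #Ts := Nat.cast_nonneg _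
  nlinarith [mul_nonneg hTs (sub_nonneg.mpr hd')]

private theorem Stp_fs {α : Type} {S : Set α} (hS : S.Finite) (p : α → Prop) [DecidablePred p]
    (f : α → ℝ) :
    ∑ᶠ z ∈ {z ∈ S | p z}, f z = ∑ z ∈ hS.toFinset, if p z then f z else 0 := by
  have h : {z ∈ S | p z} = ↑(hS.toFinset.filter p) := by
    ext z
    simp
  rw [h, finsum_mem_coe_finset, sum_filter]

private theorem Stp_ncard {α : Type} {S : Set α} (hS : S.Finite) (p : α → Prop)
    [DecidablePred p] : {z ∈ S | p z}.ncard = #(hS.toFinset.filter p) := by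
  have h : {z ∈ S | p z} = ↑(hS.toFinset.filter p) := by
    ext z
    simp
  rw [h, Set.ncard_coe_finset]

private theorem Stp_tup {P ι : Type} [Fintype ι] [DecidableEq ι] (S : ι → Finset P) :
    (tup S).Finite := by
  refine (Fintype.piFinset S).finite_toSet.subset fun z hz => ?_
  rw [mem_coe, Fintype.mem_piFinset]
  exact hz.1

theorem tStp : S_Dk1 → S_Sy1 → S_StF → S_Brg → S_Stp := by
  intro hDk hSy hStF hBrg G N P ι _ _ _ _ _ _ _ D Gb hA hA2 hτ hcom b K L₀ hK hKL δ hδ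
  classical
  obtain ⟨hst, C, hC⟩ := hStF (ι := ι) D hA K hK
  obtain ⟨d1, d2, d3, d4, d5, d6, -⟩ := hDk (ι := ι) D hA
  obtain ⟨ε, hεdef⟩ : ∃ ε : ℝ, ε = δ / (hst.toFinset.card * C + 1) := ⟨_, rfl⟩
  have hε : 0 < ε := by
    rw [hεdef]
    positivity
  have hεle : (hst.toFinset.card : ℝ) * (C * ε) ≤ δ := by
    rw [hεdef, ← mul_assoc, mul_div_assoc', div_le_iff₀ (by positivity)]
    nlinarith
  obtain ⟨N₁, hN₁⟩ := hBrg D Gb hA hA2 hτ hcom b K hK ε hε
  refine ⟨N₁, fun S hS1 hS2 => ?_⟩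
  obtain ⟨HH, hHf, hHn, hH⟩ := hN₁ S hS1 hS2
  refine ⟨HH, hHf, hHn, fun S' hS' hok hcard => ?_⟩
  have hB := hH S' hS' hok hcard
  have hfin := Stp_tup S'
  obtain ⟨Pr, hPr⟩ : ∃ Pr : ℝ, Pr = ∏ i, (#(S' i) : ℝ) := ⟨_, rfl⟩
  have hPr0 : 0 ≤ Pr := by
    rw [hPr]
    exact prod_nonneg fun i _ => Nat.cast_nonneg _
  rw [← hPr] at hB ⊢
  rw [Stp_fs hfin, Stp_fs hfin]
  -- the state
  obtain ⟨g, hg⟩ : ∃ g : (ι → P) → ((ι → ι → ZMod 2) × (ι → {v // v ∈ D.S} →
      ZMod 2 × ZMod 2 × ZMod 2) × (ι → ZMod 2 × ZMod 2) × (ι → {u : N // 4 • u = 0} → N)) ×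
        AddSubgroup (D.J ι → N) × Set ((D.J ι → N) → ZMod 2),
      g = fun z => (D.Sy z, D.Dk z K, D.O z K) := ⟨_, rfl⟩
  have hgs : ∀ z s, D.IsSt K z s ↔ g z = s := by
    rintro z ⟨s1, s2, s3⟩
    rw [hg]
    simp only [Dat.IsSt, Prod.mk.injEq]
  have hmaps : ∀ z ∈ hfin.toFinset, g z ∈ hst.toFinset := by
    intro z _
    rw [Set.Finite.mem_toFinset]
    exact ⟨z, (hgs z _).mpr rfl⟩
  rw [← sum_fiberwise_of_maps_to hmaps, ← sum_fiberwise_of_maps_to hmaps, mul_sum]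
  have hstep : ∀ s ∈ hst.toFinset, (∑ z ∈ hfin.toFinset with g z = s,
      if D.Pat (D.Dk z 1) b L₀ ∧ 16 ≤ Nat.card (D.Dk z (K + 1)) then
        (Nat.card (D.Dk z (K + 1)) : ℝ) else 0) ≤
      61 / 64 * (∑ z ∈ hfin.toFinset with g z = s,
        if D.Pat (D.Dk z 1) b L₀ ∧ 16 ≤ Nat.card (D.Dk z K) then
        (Nat.card (D.Dk z K) : ℝ) else 0) + C * ε * Pr := by
    intro s _
    have hRHS : 0 ≤ 61 / 64 * (∑ z ∈ hfin.toFinset with g z = s,
        if D.Pat (D.Dk z 1) b L₀ ∧ 16 ≤ Nat.card (D.Dk z K) then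
        (Nat.card (D.Dk z K) : ℝ) else 0) + C * ε * Pr := by
      have h1 : 0 ≤ (∑ z ∈ hfin.toFinset with g z = s,
        if D.Pat (D.Dk z 1) b L₀ ∧ 16 ≤ Nat.card (D.Dk z K) then
        (Nat.card (D.Dk z K) : ℝ) else 0) := by
        refine sum_nonneg fun z _ => ?_
        split_ifs
        · exact Nat.cast_nonneg _
        · exact le_rfl
      positivity
    -- the elements of the state
    have hmem : ∀ z ∈ hfin.toFinset.filter (fun z => g z = s), z ∈ tup S' ∧ D.Sy z = s.1 ∧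
        D.Dk z K = s.2.1 := by
      intro z hz
      rw [mem_filter, Set.Finite.mem_toFinset] at hz
      have h1 := (hgs z s).mpr hz.2
      exact ⟨hz.1, h1.1, h1.2.1⟩
    by_cases hPat : ∃ z₀ ∈ hfin.toFinset.filter (fun z => g z = s), D.Pat (D.Dk z₀ 1) b L₀ ∧
        16 ≤ Nat.card (D.Dk z₀ (K + 1))
    swap
    · refine le_trans (le_of_eq (sum_eq_zero fun z hz => ?_)) hRHS
      rw [if_neg]
      exact fun h => hPat ⟨z, hz, h⟩
    obtain ⟨z₀, hz₀, hP₀, h16⟩ := hPat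
    obtain ⟨hz₀t, hz₀1, hz₀2⟩ := hmem z₀ hz₀
    have hfinK : ∀ z : ι → P, Finite (D.Dk z K) := fun z => d5 z K hK
    have h16s : 16 ≤ Nat.card s.2.1 := by
      rw [← hz₀2]
      have := hfinK z₀
      exact h16.trans (Nat.card_le_card_of_injective _
        (AddSubgroup.inclusion_injective (d3 z₀ K hK)))
    have hPs : ∀ z ∈ hfin.toFinset.filter (fun z => g z = s), D.Pat (D.Dk z 1) b L₀ := by
      intro z hz
      obtain ⟨hzt, hz1, -⟩ := hmem z hz
      rw [(hSy D hA z z₀ (hok z hzt) (hok z₀ hz₀t) (hz1.trans hz₀1.symm)).1]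
      exact hP₀
    have hPK : ∀ z ∈ tup S', D.IsSt K z s → D.Pat (D.Dk z 1) b K := by
      intro z hz hzs c hc1 hc2 hc3
      obtain ⟨I, hI1, hI2, hI3⟩ := hPs z (by
        rw [mem_filter, Set.Finite.mem_toFinset]
        exact ⟨hz, (hgs z s).mp hzs⟩) c hc1 hc2 hc3
      obtain ⟨I', hI', hcI'⟩ := exists_subset_card_eq (hI1.symm ▸ hKL : K ≤ #I)
      exact ⟨I', hcI', fun h => hI2 (hI' h), fun i hi => hI3 i (hI' hi)⟩
    have hBs := hB s h16s hPK
    have hsfin : (s.2.1 : Set (D.J ι → N)).Finite := by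
      rw [← hz₀2]
      have := hfinK z₀
      exact Set.toFinite _
    have hcardΔ : Nat.card s.2.1 = hsfin.toFinset.card := by
      rw [← Set.ncard_eq_toFinset_card _ hsfin]
      rfl
    have hle : ∀ z ∈ hfin.toFinset.filter (fun z => g z = s), D.Dk z (K + 1) ≤ s.2.1 := by
      intro z hz
      rw [← (hmem z hz).2.2]
      exact d3 z K hK
    have hcz : ∀ z ∈ hfin.toFinset.filter (fun z => g z = s), Nat.card (D.Dk z (K + 1)) =
        #(hsfin.toFinset.filter fun f => f ∈ D.Dk z (K + 1)) := by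
      intro z hz
      rw [← Set.ncard_coe_finset]
      change (D.Dk z (K + 1) : Set (D.J ι → N)).ncard = _
      congr 1
      ext f
      simp only [coe_filter, Set.Finite.mem_toFinset, SetLike.mem_coe, Set.mem_setOf_eq]
      exact ⟨fun h => ⟨hle z hz h, h⟩, fun h => h.2⟩
    have hT4 : #(hsfin.toFinset.filter fun f => f ∈ D.T ι) = 4 := by
      refine Eq.trans ?_ d6
      rw [← Set.ncard_coe_finset]
      change _ = (D.T ι : Set (D.J ι → N)).ncard
      congr 1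
      ext f
      simp only [coe_filter, Set.Finite.mem_toFinset, SetLike.mem_coe, Set.mem_setOf_eq]
      refine ⟨fun h => h.2, fun h => ⟨?_, h⟩⟩
      rw [← hz₀2]
      exact d2 z₀ (hok z₀ hz₀t) K hK h
    have hkey := Stp_key hsfin.toFinset (hfin.toFinset.filter fun z => g z = s)
      (fun z f => f ∈ D.Dk z (K + 1)) (fun f => f ∈ D.T ι) hT4 (ε * Pr) (by positivity) ?_
      (by rw [← hcardΔ]; exact h16s)
    · refine le_trans (sum_le_sum (g := fun z => (#(hsfin.toFinset.filter fun f =>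
        f ∈ D.Dk z (K + 1)) : ℝ)) fun z hz => ?_) (hkey.trans (add_le_add ?_ ?_))
      · split_ifs
        · rw [hcz z hz]
        · exact Nat.cast_nonneg _
      · refine mul_le_mul_of_nonneg_left (le_of_eq ?_) (by norm_num)
        rw [sum_congr rfl (g := fun _ => (hsfin.toFinset.card : ℝ)), sum_const, nsmul_eq_mul, mul_comm]
        intro z hz
        obtain ⟨-, -, hz2⟩ := hmem z hz
        rw [if_pos ⟨hPs z hz, by rw [hz2]; exact h16s⟩, hz2, hcardΔ]
      · have h1 : (hsfin.toFinset.card : ℝ) ≤ C := by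
          rw [← hcardΔ, ← hz₀2]
          exact_mod_cast hC z₀
        rw [mul_assoc]
        exact mul_le_mul_of_nonneg_right h1 (by positivity)
    · intro f hf hfT
      rw [Set.Finite.mem_toFinset] at hf
      have h1 := hBs f hf hfT
      rw [Stp_ncard hfin, Stp_ncard hfin] at h1
      simp only [hgs] at h1
      rw [filter_filter]
      exact h1
  refine (sum_le_sum hstep).trans ?_
  rw [sum_add_distrib, sum_const, nsmul_eq_mul]
  refine add_le_add le_rfl ?_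
  rw [← mul_assoc]
  exact mul_le_mul_of_nonneg_right hεle hPr0

end Pool.Agent.MP72S
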