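import Pool.Agent.Lib.MP_72e2e6_nt.Sm.H.Fin

/-!
# MP_72e2e6_nt, `Sm/H`: valuations of polynomials at the places
-/

set_option autoImplicit false

namespace Pool.Agent.MP72S.HD

open Polynomial Finset Pool.Agent.MP72W Pool.Agent.MP72S.D

/-- **Vl.** -/
theorem tVl : S_Vl := by
  intro F _ A hA
  have h1 : ∀ (P : {P : F[X] // P.Monic ∧ Irreducible P}) (f : F[X]), f ≠ 0 →
      (A (some P)).av (algebraMap F[X] (RatFunc F) f)
        = (1 / 2 : ℝ) ^ ((multiplicity P.1 f : ℕ) : ℤ) := by
    intro P f hf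
    have h := (hA.ok (some P)).pl
    have h2 : IsPl (some P.1) (A (some P)).av := h
    rw [zpow_natCast]
    exact h2.2.2 f hf
  have h2 : ∀ f : F[X], f ≠ 0 →
      (A none).av (algebraMap F[X] (RatFunc F) f) = (1 / 2 : ℝ) ^ (-(f.natDegree : ℤ)) := by
    intro f hf
    have h := (hA.ok none).pl
    have h3 : IsPl (none : Option F[X]) (A none).av := h
    have h4 : algebraMap F[X] (RatFunc F) f ≠ 0 := by
      rw [Ne, FaithfulSMul.algebraMap_eq_zero_iff]
      exact hf
    have h5 := h3 _ h4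
    rw [h5, RatFunc.intDegree_polynomial, one_div, inv_zpow', neg_neg]
  have h3 : ∀ (P : {P : F[X] // P.Monic ∧ Irreducible P}) (f : F[X]), f ≠ 0 → ¬ P.1 ∣ f →
      (A (some P)).av (algebraMap F[X] (RatFunc F) f) = (1 / 2 : ℝ) ^ (0 : ℤ) := by
    intro P f hf hd
    rw [h1 P f hf, multiplicity_eq_zero.2 hd]
    rfl
  refine ⟨h1, h2, h3, ?_, ?_, ?_⟩
  · intro P P' hne hd
    apply hne
    apply Subtype.ext
    exact eq_of_monic_of_associated P.2.1 P'.2.1 (P.2.2.associated_of_dvd P'.2.2 hd)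
  · intro P
    exact multiplicity_self
  · intro w c hc
    have hC0 : (C c : F[X]) ≠ 0 := by
      rw [Ne, C_eq_zero]
      exact hc
    have hC : (RatFunc.C c : RatFunc F) = algebraMap F[X] (RatFunc F) (C c) := by
      rw [RatFunc.algebraMap_C]
    rw [hC]
    cases w with
    | none =>
      rw [h2 _ hC0, natDegree_C]
      simp
    | some P =>
      apply h3 P _ hC0
      intro hd
      apply P.2.2.not_isUnit
      refine isUnit_of_dvd_unit hd ?_
      exact isUnit_C.2 (isUnit_iff_ne_zero.2 hc)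

end Pool.Agent.MP72S.HD
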