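import Pool.Agent.Lib.MP_72e2e6_nt.Sm.H.Dat

/-!
# MP_72e2e6_nt, `Sm/H`: assembly for the concrete datum

`S_Ax`, `S_Ax2`, `S_Ax3`, `S_Lv` say that the datum `DD` satisfies all the axioms, `S_GO` gives the
hypotheses of block S, `S_Fin` is the final theorem. `S_G1`, `S_G2`, `S_G3` are the targets of block G,
`S_EQ` is the target of block E. File `Sm/H/<Name>.lean` with `theorem t<Name> (h1 : ..) .. : S_<Name>`,
namespace `Pool.Agent.MP72S.HD`, other declarations `private`.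
-/

namespace Pool.Agent.MP72S.HD

open Polynomial Finset Pool.Agent.MP72W Pool.Agent.MP72S.D

/-! ### Targets of other blocks -/

/-- Target of block E: the axioms on `H²` and reciprocity. -/
def S_EQ : Prop :=
  ∀ (G N P : Type) [Group G] [TopologicalSpace G] [IsTopologicalGroup G] [CompactSpace G]
    (D : Dat G N P) (k Q : Type) [Field k] [IsAlgClosed k] [Field Q] [Algebra k Q]
    [MulSemiringAction G Q] (t : Q) (q : ℕ) (dg : P → ℕ) (rt : P → k), Qd D k Q t q dg rt →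
    Ax2 D ∧
    (∀ f : G → ZMod 2, IsCh f → (∀ v, f (D.tau v) = 0) → f (D.phi D.inf) = 0 → ∀ σ, f σ = 0) ∧
    (∀ f g : G → ZMod 2, IsCh f → IsCh g →
      ∑ᶠ v, (f (D.tau v) * g (D.phi v) + f (D.phi v) * g (D.tau v)) = 0) ∧
    ∀ (R : Type) [AddCommGroup R] [DistribMulAction G R] (i : R →+ Additive Qˣ),
      Function.Injective i → (∀ (g : G) (r : R), ((i (g • r)).toMul : Q) = g • ((i r).toMul : Q)) →
      (∀ x : Qˣ, (∃ n : ℕ, x ^ 2 ^ n = 1) ↔ ∃ r, i r = Additive.ofMul x) →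
      ∀ z : G → G → R, IsC2 (fun g r => g • r) z → (∀ v, 2 • D.iv z v = 0) →
        ∑ᶠ v, D.iv z v = 0

/-- Target of block G: the mean value of `#(Dk z 1)` is bounded. -/
def S_G1 : Prop :=
  ∀ (F : Type) [Field F] [Finite F] (a : Fin 3 → F[X]) (d : F[X]) (u : F) (S : Finset (Pl F))
    (A : Pl F → Lcd F), Hy a d → (¬ ∃ b, b ^ 2 = u) → Sok a d S → LDok F A →
    ∃ C : ℝ, ∀ r, ∃ N₀, ∀ n, Adm a d r n → (∀ i, N₀ ≤ n i) →
      (∑ᶠ z ∈ tup fun i => irr F S (n i), (Nat.card ((DD F a d u S A).Dk z 1) : ℝ)) ≤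
        C * ∏ i, (#(irr F S (n i)) : ℝ)

/-- Target of block G: few tuples are without the pattern property. -/
def S_G2 : Prop :=
  ∀ (F : Type) [Field F] [Finite F] (a : Fin 3 → F[X]) (d : F[X]) (u : F) (S : Finset (Pl F))
    (A : Pl F → Lcd F), Hy a d → (¬ ∃ b, b ^ 2 = u) → Sok a d S → LDok F A →
    ∀ (L₀ : ℕ) (ε : ℝ), 0 < ε → ∃ r₀, ∀ r, r₀ ≤ r → ∃ N₀, ∀ n, Adm a d r n → (∀ i, N₀ ≤ n i) →
      (∑ᶠ z ∈ {z ∈ tup fun i => irr F S (n i) |
          ¬ (DD F a d u S A).Pat ((DD F a d u S A).Dk z 1) (Fin.last r) L₀},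
        (Nat.card ((DD F a d u S A).Dk z 1) : ℝ)) ≤ ε * ∏ i, (#(irr F S (n i)) : ℝ)

/-- Target of block G: `#(Dk z 1)` is a power of four. -/
def S_G3 : Prop :=
  ∀ (F : Type) [Field F] [Finite F] (a : Fin 3 → F[X]) (d : F[X]) (u : F) (S : Finset (Pl F))
    (A : Pl F → Lcd F), Hy a d → (¬ ∃ b, b ^ 2 = u) → Sok a d S → LDok F A →
    ∀ r n, Adm a d r n → ∀ z ∈ tup fun i : Fin (r + 1) => irr F S (n i),
      ∃ s : ℕ, Nat.card ((DD F a d u S A).Dk z 1) = 4 ^ s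

/-! ### Assembly -/

/-- **Irf** (80 lines, uses `SF.S_Irc`). Existence of `S` and of `u`, the sets `irr`.

Proof. (1) `bad a d ≠ 0` (`d` squarefree, `a` injective), so it has finitely many monic divisors
(`F` is finite: finitely many polynomials of degree at most `natDegree (bad a d)`). (2) The squaring is not
surjective on the finite field `F` of odd order (`q ≡ 1` modulo four): `FiniteField.exists_nonsquare` or
injectivity fails at `1`, `-1`. (3) `Irs F n` is finite by `S_Irc` (1), which gives `irr`. (4) Let `n₁` be larger than the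
degrees of all `P` with `some P ∈ S`. For `n ≥ n₁` `irr F S n` is `Irs F n`, and for large `n`
`#(Irs F n) ≥ 3 q ^ n / (4 n) ≥ m`. -/
def S_Irf : Prop :=
  ∀ (F : Type) [Field F] [Finite F] (a : Fin 3 → F[X]) (d : F[X]) (A : Pl F → Lcd F), Hy a d →
    LDok F A → (∃ S, Sok a d S) ∧ (∃ u : F, ¬ ∃ b, b ^ 2 = u) ∧
    ∀ S : Finset (Pl F), (∀ n w, w ∈ irr F S n ↔ w ∈ SF.Irs F n ∧ w ∉ S) ∧
      (∃ n₁, ∀ n, n₁ ≤ n → (irr F S n : Set (Pl F)) = SF.Irs F n) ∧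
      ∀ m : ℕ, ∃ n₀, ∀ n, n₀ ≤ n → m ≤ #(irr F S n)

/-- **Vl** (80 lines). Valuations of polynomials at the places.

Proof. `IsPl` for `A w` (`LDok.ok`, `Lcd.Ok.pl`). (1) `v f = (1 / 2) ^ multiplicity P f`. (2) `v f = 2 ^ intDegree f` and
`intDegree (algebraMap f) = natDegree f`. (3) from (1) with `multiplicity = 0` (`multiplicity_eq_zero` or
`emultiplicity`). (4) different monic irreducible polynomials do not divide each other. (6) `v c = 1` for a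
nonzero constant: `P ∤ C c`, resp. degree `0`. -/
def S_Vl : Prop :=
  ∀ (F : Type) [Field F] (A : Pl F → Lcd F), LDok F A →
    (∀ (P : {P : F[X] // P.Monic ∧ Irreducible P}) (f : F[X]), f ≠ 0 →
      (A (some P)).av (algebraMap F[X] (RatFunc F) f) = (1 / 2 : ℝ) ^ ((multiplicity P.1 f : ℕ) : ℤ)) ∧
    (∀ f : F[X], f ≠ 0 →
      (A none).av (algebraMap F[X] (RatFunc F) f) = (1 / 2 : ℝ) ^ (-(f.natDegree : ℤ))) ∧
    (∀ (P : {P : F[X] // P.Monic ∧ Irreducible P}) (f : F[X]), f ≠ 0 → ¬ P.1 ∣ f →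
      (A (some P)).av (algebraMap F[X] (RatFunc F) f) = (1 / 2 : ℝ) ^ (0 : ℤ)) ∧
    (∀ P P' : {P : F[X] // P.Monic ∧ Irreducible P}, P ≠ P' → ¬ P.1 ∣ P'.1) ∧
    (∀ P : {P : F[X] // P.Monic ∧ Irreducible P}, multiplicity P.1 P.1 = 1) ∧
    ∀ (w : Pl F) (c : F), c ≠ 0 → (A w).av (RatFunc.C c) = (1 / 2 : ℝ) ^ (0 : ℤ)

/-- **Chr** (150 lines, uses `D.S_Km`, `D.S_Kl`, `S_Vl`). The characters of the datum.

Proof. `IsCh`: `D.S_Km` (1) (`P`, `C u`, `d` are not zero; `u ≠ 0` since `0 = 0 ^ 2`). At `tau w`: `D.S_Kl` (1) with the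
exponents of `S_Vl`. `ch_phi`: `D.S_Kl` (2), `unP (some P) = P`. `ch_inf`: `D.S_Kl` (5). `cst_inf`: `D.S_Kl` (4), `dgP none = 1`.
`ch0_tau`: `w ∉ S` means `w = some P`, `P ∤ bad`, so `P ∤ d`. -/
def S_Chr : Prop :=
  ∀ (F : Type) [Field F] [Finite F] (a : Fin 3 → F[X]) (d : F[X]) (u : F) (S : Finset (Pl F))
    (A : Pl F → Lcd F), Hy a d → (¬ ∃ b, b ^ 2 = u) → Sok a d S → LDok F A →
    let D := DD F a d u S A
    (∀ v, v ≠ D.inf → IsCh (D.ch v)) ∧ (∀ v, v ≠ D.inf → D.ch v (D.tau v) = 1) ∧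
    (∀ v w, v ≠ D.inf → w ≠ D.inf → v ≠ w → D.ch v (D.tau w) = 0) ∧
    (∀ v, v ≠ D.inf → D.ch v (D.phi v) = 0) ∧ (∀ v, v ≠ D.inf → D.ch v (D.phi D.inf) = 0) ∧
    IsCh D.cst ∧ (∀ v, D.cst (D.tau v) = 0) ∧ D.cst (D.phi D.inf) = 1 ∧ IsCh D.ch0 ∧
    ∀ v, v ∉ D.S → D.ch0 (D.tau v) = 0

/-- **Nu** (100 lines, uses `D.S_Pc`, `S_Vl`). The valuations of the differences of the roots.

Proof. `al (aR a) L i - al (aR a) L j` is the image of `a i - a j`. `D.S_Pc` (2) with the exponents of `S_Vl`. (3) from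
(1) with multiplicity `0`. -/
def S_Nu : Prop :=
  ∀ (F : Type) [Field F] [Finite F] (a : Fin 3 → F[X]), (2 : F) ≠ 0 → Function.Injective a →
    ∀ A : Pl F → Lcd F, LDok F A →
    (∀ w, C.Plc ((A w).rQ (A w).t) ((A w).rQ (A w).f) (Nat.card F ^ dgP w.o) (nuP (A w))
      (resP (A w))) ∧
    (∀ P i j, i ≠ j → nuP (A (some P)) (C.al (aR a) (Qf F) i - C.al (aR a) (Qf F) j) =
      (((multiplicity P.1 (a i - a j) : ℤ) : ℚ) : WithTop ℚ)) ∧
    (∀ i j, i ≠ j → nuP (A none) (C.al (aR a) (Qf F) i - C.al (aR a) (Qf F) j) =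
      (((-(a i - a j).natDegree : ℤ) : ℚ) : WithTop ℚ)) ∧
    ∀ P i j, i ≠ j → ¬ P.1 ∣ a i - a j →
      nuP (A (some P)) (C.al (aR a) (Qf F) i - C.al (aR a) (Qf F) j) = 0

/-- **Ax** (150 lines, uses `C.S_AxN`, `C.S_Goo`, `D.S_QG`, `D.S_Kt`, `D.S_Fi`, `D.S_Rq`, `D.S_Qd`, `S_EQ`, `S_Chr`,
`S_Nu`). The axioms `Ax`.

Proof. `C.Hyp (aR a) (Qf F)`: `2 ≠ 0` in `F` as `q` is odd, `a` injective. `QC (Qf F)`: `D.S_QG` (4). A square root of `-1` in
`F(t)`: `q ≡ 1` modulo four (`FiniteField.isSquare_neg_one_iff` or `ZMod`-free: a generator of `Fˣ` to the power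
`(q - 1) / 4`). `Qf F / F(t)` is algebraic (`D.S_QG` (1)). `prim`, `dvs`, `four`, `act`, `tri`, `e_*`, `sa`: `C.S_AxN`. `q4`:
`q ^ d % 4 = 1`. `rel`: `D.S_Rq` (4). `infS`: `Sok`. `unr`: `C.S_Goo` with `S_Nu` (1), (4): `w = some P ∉ S`, so `P` does not
divide the factors `a i - a j` of `bad`. `ch*`, `cst*`: `S_Chr`. `fidx`: `GQ F` is compact (`D.S_Kt` (3)), an open subgroup
has finite index (`Subgroup.quotient_finite_of_isOpen`). `fin`: `D.S_Fi`. `uni`, `rcp`: `S_EQ` for the structure of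
`D.S_Qd`. -/
def S_Ax : Prop :=
  ∀ (F : Type) [Field F] [Finite F] (a : Fin 3 → F[X]) (d : F[X]) (u : F) (S : Finset (Pl F))
    (A : Pl F → Lcd F), Hy a d → (¬ ∃ b, b ^ 2 = u) → Sok a d S → LDok F A →
    Ax (DD F a d u S A) ∧ Ax2 (DD F a d u S A)

/-- **Ax3** (150 lines, uses `C.S_AxE`, `C.S_RUp`, `C.S_Cts`, `C.S_Ppr`, `C.S_Nis`, `C.S_MlS`, `D.S_QG`, `D.S_Kt`, `D.S_Qd`,
`S_EQ`, `S_Nu`, `S_Ax`). The axioms `Ax3` for `R = RU (Qf F)`, `hf = hfU`.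

Proof. `P1`: `C.S_RUp`. `actR`: `C.S_Cts` (3). `tauR`, `phiR`: `C.S_Ppr` (12) for the places of `S_Nu` (1). `1 < nq inf = q`,
`nq v = q ^ deg v`, `deg v ≥ 1`. `C.S_Nis` gives `P, i, j, l` with `m_P(a i - a l) < m_P(a i - a j)`; `v₁ = some P`, `S_Nu` (2) and
`C.S_MlS` give the hypothesis of `C.S_AxE`. So `C.S_AxE` gives `E`. `recR`: `S_EQ` (4) with `i` = the inclusion of
`RU (Qf F)` in the units (`uv`). -/
def S_Ax3 : Prop :=
  ∀ (F : Type) [Field F] [Finite F] (a : Fin 3 → F[X]) (d : F[X]) (u : F) (S : Finset (Pl F))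
    (A : Pl F → Lcd F), Hy a d → (¬ ∃ b, b ^ 2 = u) → Sok a d S → LDok F A →
    ∃ E : ℕ → C.NN (aR a) (Qf F) → C.NN (aR a) (Qf F) → C.RU (Qf F),
      Ax3 (DD F a d u S A) E (C.hfU (Qf F))

/-- **Cm** (100 lines, uses `D.S_Kk`). Commutators are trivial on the constants.

Proof. Let `c ∈ kF F`, `c ^ q ^ n = c`, `n ≥ 1`. For `σ ∈ GQ F` there is `i` with `σ c = c ^ q ^ i`: the polynomial
`∏_{i < n} (X - c ^ q ^ i)` has coefficients which are fixed by `x ↦ x ^ q`, so they are in the image of `F` (`D.S_Kk` (4)),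
hence fixed by `σ`; so `σ c` is a root. So `σ τ c = τ σ c` for all `σ`, `τ` (`τ c = c ^ q ^ j`,
`σ (c ^ q ^ j) = (σ c) ^ q ^ j`). -/
def S_Cm : Prop :=
  ∀ (F : Type) [Field F] [Finite F] (σ τ : GQ F), σ * τ * σ⁻¹ * τ⁻¹ ∈ SF.Gb F

/-- **Okt** (150 lines, uses `C.S_Tam`, `D.S_Kl`, `S_Vl`, `S_Nu`, `S_Irf`). The tuples are admissible.

Proof. `inj`: `tup`. `nS`: `irr`. Let `D = d ∏ P_i` (`z i = some P_i`). `chi z (tau s) = hK d (tau s) + ∑ hK P_i (tau s)` is by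
`D.S_Kl` (1) and `S_Vl` the class modulo two of the valuation of `D` at `s`: at `s = some P ∈ S` it is `m_P(d)` (`P ≠ P_i` as
`z i ∉ S`), at infinity `- (deg d + ∑ n i)`. Apply `C.S_Tam` with `c = chi z (tau s)` (`tw (chi) (tau s) Q = sg c (tau s • Q)`): for
`s = some P` and `i` we need `j ≠ i` with `m_P(a i - a j) + m_P(d)` odd (`S_Nu` (2)): if `P` divides `∏ (a i - a j)` this is
`Hy.tame`; otherwise `P ∣ d`, `m_P(d) = 1` (squarefree) and `m_P(a i - a j) = 0`, any `j ≠ i`. At infinity: the largest of the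
three degrees `deg (a i - a j)` is attained at least twice (`(a 0 - a 1) + (a 1 - a 2) = a 0 - a 2`), so for every `i` there
is `j ≠ i` with `deg (a i - a j) = mxd a`, and `- mxd a - deg d - ∑ n i` is odd by `Adm`. -/
def S_Okt : Prop :=
  ∀ (F : Type) [Field F] [Finite F] (a : Fin 3 → F[X]) (d : F[X]) (u : F) (S : Finset (Pl F))
    (A : Pl F → Lcd F), Hy a d → Sok a d S → LDok F A → ∀ r n, Adm a d r n →
    ∀ z ∈ tup fun i : Fin (r + 1) => irr F S (n i), (DD F a d u S A).Ok z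

/-- **Lv** (80 lines, uses `D.S_Rq`, `D.S_Kk`, `SF.S_Spl`, `S_G1`, `S_G2`, `S_G3`, `S_Irf`, `S_Cm`, `S_Okt`). The structure `Lvl`.

Proof. `tau`: `D.S_Rq` (2) (the constants are the elements of `kF F`, `D.S_Kk` (2); `t` is `IsGeo` by `Lcd.Ok.tg`). `com`:
`S_Cm`. `nS`, `inf`: `S_Irf`. `ok`: `S_Okt`. `spl`: `SF.S_Spl` and `S_Irf` (4) (for `n ≥ n₁` `irr` is `Irs`). `g1`, `g2`, `g3`. -/
def S_Lv : Prop :=
  ∀ (F : Type) [Field F] [Finite F] (a : Fin 3 → F[X]) (d : F[X]) (u : F) (S : Finset (Pl F))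
    (A : Pl F → Lcd F), Hy a d → (¬ ∃ b, b ^ 2 = u) → Sok a d S → LDok F A →
    Lvl (DD F a d u S A) (SF.Gb F) (irr F S) (Adm a d)

/-- **GO** (40 lines, uses `MP72S.S.S_Gok`). The global hypotheses of block S.

Proof. `MP72S.S.S_Gok` for `aR a`, `B = DD F a d u S A`, `d₀ = d`; the function `π` there is `piP` (`funext`, cases). -/
def S_GO : Prop :=
  ∀ (F : Type) [Field F] [Finite F] (a : Fin 3 → F[X]) (d : F[X]) (u : F) (S : Finset (Pl F))
    (A : Pl F → Lcd F), Hy a d → LDok F A →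
    MP72S.S.GOk (aR a) (Qf F) (DD F a d u S A) (fun w => (A w).av) piP (algebraMap F[X] (RatFunc F) d)

/-- **Cnc** (120 lines, uses `S.S_Plt`, `S.S_Main`, `S_Ax`, `S_Okt`, `S_GO`, `S_Irf`). From `Dk z L = T` to finiteness.

Proof. `z i = some (R i)`. `S.S_Main` for `x = z`: the curve is `Wa (fun i => (d * ∏ R k) * a i)`. At `s ∈ S` and at the
`z i` the curve is `Tame` by `S.S_Plt`: at `p` the multiplicity of `p` in `D = d ∏ R k` is `m_p(d)` if `some p ∈ S` (then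
`p ≠ R k`) and `1` for `p = R k` (the `R k` are different and do not divide `bad a d`), and then as in `S_Okt`. At infinity by
`Adm`. At all other places `p ∤ D`, `p ∤ a i - a j`: `Good`. -/
def S_Cnc : Prop :=
  ∀ (F : Type) [Field F] [Finite F] (a : Fin 3 → F[X]) (d : F[X]) (u : F) (S : Finset (Pl F))
    (A : Pl F → Lcd F), Hy a d → (¬ ∃ b, b ^ 2 = u) → Sok a d S → LDok F A → ∀ r n, Adm a d r n →
    ∀ R : Fin (r + 1) → {P : F[X] // P.Monic ∧ Irreducible P},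
    (fun i => some (R i)) ∈ (tup fun i : Fin (r + 1) => irr F S (n i)) → ∀ L, 1 ≤ L →
    (DD F a d u S A).Dk (fun i => some (R i)) L = (DD F a d u S A).T (Fin (r + 1)) →
      Finite (C.Wa fun i => algebraMap F[X] (RatFunc F) ((d * ∏ k, (R k).1) * a i)).toAffine.Point ∧
      ShaTwoFin (C.Wa fun i => algebraMap F[X] (RatFunc F) ((d * ∏ k, (R k).1) * a i))

/-- The tuples of monic irreducible polynomials of degrees `n i`. -/
def tps (F : Type) [Field F] {r : ℕ} (n : Fin r → ℕ) : Set (Fin r → F[X]) :=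
  {R | ∀ i, (R i).Monic ∧ Irreducible (R i) ∧ (R i).natDegree = n i}

/-- **Fin** (150 lines, uses `D.S_Lo`, `MP72S.S_End`, `S_Ax`, `S_Ax3`, `S_Lv`, `S_Irf`, `S_Cnc`). THE FINAL THEOREM.

Proof. Let `A` be from `D.S_Lo`, `S`, `u` from `S_Irf`, `D = DD F a d u S A`. `S_End` for `ε / 4` gives `L`, `r₀`, for `r ≥ r₀` `N₁`
(enlarge it so that `irr F S n` is `Irs F n` for `n ≥ N₁`, `S_Irf`), and `N₂`. The map `z ↦ (the polynomials of z)` is a
bijection between the tuples `z` with `z i ∈ Irs F (n i)` and `tps F n`; it maps the `z ∈ tup` with `Dk z L = T` into the set on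
the right by `S_Cnc`. `ncard (tps F n) = ∏ #(irr F S (n i))`. -/
def S_Fin : Prop :=
  ∀ (F : Type) [Field F] [Finite F] (a : Fin 3 → F[X]) (d : F[X]), Hy a d → ∀ ε : ℝ, 0 < ε →
    ∃ r₀ : ℕ, ∀ r, r₀ ≤ r → ∃ N₁ : ℕ, ∀ n' : Fin r → ℕ, (∀ i, N₁ ≤ n' i) → ∃ N₂ : ℕ, ∀ m, N₂ ≤ m →
    Odd (d.natDegree + (∑ i, n' i + m) + mxd a) →
    (tps F (Fin.snoc n' m : Fin (r + 1) → ℕ)).Finite ∧
    (1 - ε) * ((tps F (Fin.snoc n' m : Fin (r + 1) → ℕ)).ncard : ℝ) ≤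
      ({R ∈ tps F (Fin.snoc n' m : Fin (r + 1) → ℕ) |
        Finite (C.Wa fun i => algebraMap F[X] (RatFunc F) ((d * ∏ k, R k) * a i)).toAffine.Point ∧
        ShaTwoFin (C.Wa fun i => algebraMap F[X] (RatFunc F) ((d * ∏ k, R k) * a i))}.ncard : ℝ)

end Pool.Agent.MP72S.HD
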