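import Pool.Agent.Lib.MP_72e2e6_nt.Sm.P.Spec

/-!
# MP_72e2e6_nt, `Sm/H`: the assembly of the main theorem (abstract form)

`Brg` is the main inequality (target of the bridge `Sm/Br`), `Lvl` collects the arithmetic input
(level one, Stepanov), `End` is the theorem for the groups `Dk z L`.
-/

namespace Pool.Agent.MP72S

open Finset

section

variable {G N P : Type} [Group G] [TopologicalSpace G] [AddCommGroup N] [DistribMulAction G N]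
  (D : Dat G N P) {ι : Type} [Fintype ι] [DecidableEq ι]

/-- Every pattern relative to the index `b` occurs for at least `K` indices. -/
def Dat.Pat (L : AddSubgroup (D.J ι → N)) (b : ι) (K : ℕ) : Prop :=
  ∀ c : (D.J ι → N) → N, (∀ ν ∈ L, ∀ ν' ∈ L, c (ν + ν') = c ν + c ν') → (∀ ν ∈ D.T ι, c ν = 0) →
    (∀ ν ∈ L, 2 • c ν = 0) →
    ∃ I : Finset ι, #I = K ∧ b ∉ I ∧ ∀ i ∈ I, ∀ ν ∈ L, ν (Sum.inr i) = ν (Sum.inr b) + c ν

/-- The state of a configuration. -/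
def Dat.IsSt (K : ℕ) (z : ι → P)
    (s : ((ι → ι → ZMod 2) × (ι → {v // v ∈ D.S} → ZMod 2 × ZMod 2 × ZMod 2) ×
      (ι → ZMod 2 × ZMod 2) × (ι → {u : N // 4 • u = 0} → N)) × AddSubgroup (D.J ι → N) ×
        Set ((D.J ι → N) → ZMod 2)) : Prop :=
  D.Sy z = s.1 ∧ D.Dk z K = s.2.1 ∧ D.O z K = s.2.2

/-- The injective tuples `z` with `z i ∈ S i`. -/
def tup (S : ι → Finset P) : Set (ι → P) := {z | (∀ i, z i ∈ S i) ∧ Function.Injective z}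

end

/-- The main inequality (target of the bridge). -/
def S_Brg : Prop :=
  ∀ {G N P ι : Type} [Group G] [TopologicalSpace G] [IsTopologicalGroup G] [AddCommGroup N]
    [DistribMulAction G N] [Fintype ι] [DecidableEq ι] (D : Dat G N P) (Gb : Subgroup G),
    Ax D → Ax2 D → (∀ v, D.tau v ∈ Gb) → (∀ σ τ : G, σ * τ * σ⁻¹ * τ⁻¹ ∈ Gb) →
    ∀ (b : ι) (K : ℕ), 1 ≤ K → ∀ ε : ℝ, 0 < ε → ∃ N₁ : ℕ, ∀ S : ι → Finset P,
    (∀ i, i ≠ b → N₁ ≤ #(S i)) → (∀ i, i ≠ b → ∀ v ∈ S i, v ∉ D.S) →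
    ∃ HH : Set (Subgroup G), HH.Finite ∧ (∀ H ∈ HH, H.Normal ∧ IsOpen (H : Set G)) ∧
      ∀ S' : ι → Finset P, (∀ i, i ≠ b → S' i = S i) → (∀ z ∈ tup S', D.Ok z) →
      (∀ H ∈ HH, ({c ∈ S' b | D.phi c ∈ H} : Set P).ncard * H.relIndex Gb ≤ 2 * #(S' b)) →
      ∀ s, 16 ≤ Nat.card s.2.1 → (∀ z ∈ tup S', D.IsSt K z s → D.Pat (D.Dk z 1) b K) →
      ∀ f ∈ s.2.1, f ∉ D.T ι →
        ({z ∈ tup S' | D.IsSt K z s ∧ f ∈ D.Dk z (K + 1)}.ncard : ℝ) ≤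
          15 / 16 * ({z ∈ tup S' | D.IsSt K z s}.ncard : ℝ) + ε * ∏ i, (#(S' i) : ℝ)

/-- The arithmetic input: `Irr n` are the monic irreducible polynomials of degree `n` (outside `S`),
`Adm` the admissible degrees. -/
structure Lvl {G N P : Type} [Group G] [TopologicalSpace G] [AddCommGroup N]
    [DistribMulAction G N] (D : Dat G N P) (Gb : Subgroup G) (Irr : ℕ → Finset P)
    (Adm : ∀ r : ℕ, (Fin (r + 1) → ℕ) → Prop) : Prop where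
  tau : ∀ v, D.tau v ∈ Gb
  com : ∀ σ τ, σ * τ * σ⁻¹ * τ⁻¹ ∈ Gb
  nS : ∀ n, ∀ v ∈ Irr n, v ∉ D.S
  inf : ∀ m : ℕ, ∃ n₀, ∀ n, n₀ ≤ n → m ≤ #(Irr n)
  ok : ∀ r n, Adm r n → ∀ z ∈ tup fun i => Irr (n i), D.Ok z
  spl : ∀ H : Subgroup G, H.Normal → IsOpen (H : Set G) → ∃ n₀, ∀ n, n₀ ≤ n →
    ({c ∈ Irr n | D.phi c ∈ H} : Set P).ncard * H.relIndex Gb ≤ 2 * #(Irr n)
  g1 : ∃ C : ℝ, ∀ r, ∃ N₀, ∀ n, Adm r n → (∀ i, N₀ ≤ n i) →
    (∑ᶠ z ∈ tup fun i => Irr (n i), (Nat.card (D.Dk z 1) : ℝ)) ≤ C * ∏ i, (#(Irr (n i)) : ℝ)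
  g2 : ∀ (L₀ : ℕ) (ε : ℝ), 0 < ε → ∃ r₀, ∀ r, r₀ ≤ r → ∃ N₀, ∀ n, Adm r n → (∀ i, N₀ ≤ n i) →
    (∑ᶠ z ∈ {z ∈ tup fun i => Irr (n i) | ¬ D.Pat (D.Dk z 1) (Fin.last r) L₀},
      (Nat.card (D.Dk z 1) : ℝ)) ≤ ε * ∏ i, (#(Irr (n i)) : ℝ)
  g3 : ∀ r n, Adm r n → ∀ z ∈ tup fun i => Irr (n i), ∃ s : ℕ, Nat.card (D.Dk z 1) = 4 ^ s

/-- Module `StF` (finitely many states). PROOF. The first components are in a finite set (`SyF`), the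
second are subgroups of `V^J` (finite, `Bas`; `Dk z K ≤ Dk z 1`), the third are sets of functions
with values in `ZMod 2` which vanish outside `V^J` (finitely many functions). -/
def S_StF : Prop :=
  ∀ {G N P ι : Type} [Group G] [TopologicalSpace G] [AddCommGroup N] [DistribMulAction G N]
    [Fintype ι] [DecidableEq ι] (D : Dat G N P), Ax D → ∀ K, 1 ≤ K →
    {s | ∃ z : ι → P, D.IsSt K z s}.Finite ∧
    ∃ C : ℕ, ∀ z : ι → P, Nat.card (D.Dk z K) ≤ C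

/-- Module `Stp` (one step). The potential is the sum of `#(Dk z K)` over the tuples with the pattern
property for `L₀` and `#(Dk z K) ≥ 16`. PROOF. Let `C₀` be the number of states and `C` the bound of
`StF` (for `K`), `ε = δ / (C₀ C + 1)`; take `N₁` from `Brg` and the finitely many `H` of `HH`. Split
the sum for `K + 1` according to the states `s` at level `K` of the `z`. `Pat` depends only on
`Dk z 1`, i.e. on `Sy z` (`Sy1`). If `#(Dk z K) < 16` then `#(Dk z (K+1)) < 16` (`Dk1`), no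
contribution. Let `s` be a state with `#Δ ≥ 16` such that `Pat L₀` holds (`K ≤ L₀`: a subset of `I`
gives `Pat` for `K`). For `z` in the state, `#(Dk z (K+1)) = 4 + #{f ∈ Δ \ T | f ∈ Dk z (K+1)}`
(`T ≤ Dk z (K+1) ≤ Dk z K = Δ`, `#T = 4`). Sum over `z` and exchange the sums: by `Brg` at most
`(4 + 15/16 (#Δ - 4)) #s + #Δ ε ∏ ≤ 61/64 #Δ #s + C ε ∏` (as `#Δ ≥ 16`). Sum over the states. -/
def S_Stp : Prop :=
  ∀ {G N P ι : Type} [Group G] [TopologicalSpace G] [IsTopologicalGroup G] [AddCommGroup N]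
    [DistribMulAction G N] [Fintype ι] [DecidableEq ι] (D : Dat G N P) (Gb : Subgroup G),
    Ax D → Ax2 D → (∀ v, D.tau v ∈ Gb) → (∀ σ τ : G, σ * τ * σ⁻¹ * τ⁻¹ ∈ Gb) →
    ∀ (b : ι) (K L₀ : ℕ), 1 ≤ K → K ≤ L₀ → ∀ δ : ℝ, 0 < δ → ∃ N₁ : ℕ, ∀ S : ι → Finset P,
    (∀ i, i ≠ b → N₁ ≤ #(S i)) → (∀ i, i ≠ b → ∀ v ∈ S i, v ∉ D.S) →
    ∃ HH : Set (Subgroup G), HH.Finite ∧ (∀ H ∈ HH, H.Normal ∧ IsOpen (H : Set G)) ∧
      ∀ S' : ι → Finset P, (∀ i, i ≠ b → S' i = S i) → (∀ z ∈ tup S', D.Ok z) →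
      (∀ H ∈ HH, ({c ∈ S' b | D.phi c ∈ H} : Set P).ncard * H.relIndex Gb ≤ 2 * #(S' b)) →
      (∑ᶠ z ∈ {z ∈ tup S' | D.Pat (D.Dk z 1) b L₀ ∧ 16 ≤ Nat.card (D.Dk z (K + 1))},
          (Nat.card (D.Dk z (K + 1)) : ℝ)) ≤
        61 / 64 * (∑ᶠ z ∈ {z ∈ tup S' | D.Pat (D.Dk z 1) b L₀ ∧ 16 ≤ Nat.card (D.Dk z K)},
          (Nat.card (D.Dk z K) : ℝ)) + δ * ∏ i, (#(S' i) : ℝ)

/-- Module `Inj2` (few tuples are not injective). PROOF. For `i ≠ j` the number of `z` with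
`z i ∈ S i` for all `i` and `z i = z j` is at most `∏ #(S i) / max (#(S i), #(S j))`. -/
def S_Inj2 : Prop :=
  ∀ {P ι : Type} [Fintype ι] [DecidableEq ι] (ε : ℝ), 0 < ε → ∃ N₁ : ℕ, ∀ S : ι → Finset P,
    (∀ i, N₁ ≤ #(S i)) → (tup S).Finite ∧
      (1 - ε) * ∏ i, (#(S i) : ℝ) ≤ ((tup S).ncard : ℝ)

/-- Module `End` (THE MAIN THEOREM, abstract form). PROOF. Let `C` be the constant of `g1`; choose
`L ≥ 1` with `(61/64)^(L-1) C ≤ ε`, then `r₀` from `g2` for `L₀ = L` and `ε`. Let `r ≥ r₀`,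
`δ = ε / (L + 1)`. `N₁` is larger than all bounds of `g1`, `g2`, of `Stp` for `K = 1, .., L - 1`
(`ι = Fin (r+1)`, `b = last`; with `inf`: `#(Irr n) ≥` the bound of `Stp` for `n ≥ N₁`) and `Inj2`.
Given `n' i ≥ N₁`, `Stp` gives finite sets `HH_K`, and `N₂` is larger than `N₁` and the bounds `n₀`
of `spl` for all `H` in them. Let `m ≥ N₂` and the degrees admissible. Then with `Φ_K` the
potential: `Φ_1 ≤ C ∏` (`g1`), `Φ_(K+1) ≤ 61/64 Φ_K + δ ∏`, so `Φ_L ≤ (ε + L δ) ∏ ≤ 2 ε ∏`. The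
injective tuples with `Pat` and `#(Dk z L) ≥ 16` are at most `Φ_L / 16`, those without `Pat` at most
`ε ∏ / 4` (`g2`, `#(Dk z 1) ≥ 4`), the tuples which are not injective at most `ε ∏`. For all others
`#(Dk z L) < 16`, so `Dk z L = T` by `Evn` (`g3`). -/
def S_End : Prop :=
  ∀ {G N P R : Type} [Group G] [TopologicalSpace G] [IsTopologicalGroup G] [AddCommGroup N]
    [DistribMulAction G N] [AddCommGroup R] [DistribMulAction G R]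
    (D : Dat G N P) (E : ℕ → N → N → R) (hf : R) (Gb : Subgroup G) (Irr : ℕ → Finset P)
    (Adm : ∀ r : ℕ, (Fin (r + 1) → ℕ) → Prop), Ax D → Ax2 D → Ax3 D E hf →
    Lvl D Gb Irr Adm → ∀ ε : ℝ, 0 < ε → ∃ L, 1 ≤ L ∧ ∃ r₀, ∀ r, r₀ ≤ r → ∃ N₁ : ℕ,
    ∀ n' : Fin r → ℕ, (∀ i, N₁ ≤ n' i) → ∃ N₂ : ℕ, ∀ m, N₂ ≤ m →
    Adm r (Fin.snoc n' m : Fin (r + 1) → ℕ) →
    (1 - 4 * ε) * ∏ i, (#(Irr ((Fin.snoc n' m : Fin (r + 1) → ℕ) i)) : ℝ) ≤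
      ({z ∈ tup fun i => Irr ((Fin.snoc n' m : Fin (r + 1) → ℕ) i) |
        D.Dk z L = D.T (Fin (r + 1))}.ncard : ℝ)

end Pool.Agent.MP72S
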