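import Pool.Agent.Lib.MP_72e2e6_nt.Sm.F.Spec
import Pool.Agent.Lib.MP_72e2e6_nt.Sm.H.Spec
import Pool.Agent.Lib.MP_72e2e6_nt.Sm.S.Spec

/-!
# MP_72e2e6_nt, `Sm/H`: the concrete datum

`F` is a finite field, `q = Nat.card F ≡ 1` modulo four, `a i ∈ F[t]`, `E : y ^ 2 = ∏ (x - a i)`, `d ∈ F[t]` is
squarefree, `u ∈ F` is not a square. `G = GQ F = Gal(Qf F/F(t))`, `N = NN (aR a) (Qf F)` the `2`-power torsion of
`E`, `P = Pl F` the places of `F(t)`, `S` the set of `∞` and the divisors of `d ∏ (a i - a j)`.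
-/

namespace Pool.Agent.MP72S.HD

open Polynomial Finset Pool.Agent.MP72W Pool.Agent.MP72S.D

/-- The hypotheses on the curve `y ^ 2 = ∏ (x - a i)` and on the fixed factor `d` of the twists: full rational
two-torsion, no product `(a i - a j) (a i - a l)` is a constant times a square; at the primes dividing
`∏ (a i - a j)` the twist by `d` has, for every `i`, some `a i - a j` of odd valuation (together with `d`). -/
structure Hy {F : Type} [Field F] (a : Fin 3 → F[X]) (d : F[X]) : Prop where
  q4 : Nat.card F % 4 = 1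
  inj : Function.Injective a
  nis : ∀ i j l : Fin 3, i ≠ j → i ≠ l → j ≠ l → ∀ (c : F) (z : F[X]),
    (a i - a j) * (a i - a l) ≠ C c * z ^ 2
  sqf : Squarefree d
  tame : ∀ P : F[X], Irreducible P → P ∣ (a 0 - a 1) * (a 0 - a 2) * (a 1 - a 2) →
    ∀ i, ∃ j, j ≠ i ∧ Odd (multiplicity P d + multiplicity P (a i - a j))

/-- The `a i` as elements of `F(t)`. -/
noncomputable def aR {F : Type} [Field F] (a : Fin 3 → F[X]) (i : Fin 3) : RatFunc F :=
  algebraMap F[X] (RatFunc F) (a i)

/-- The product of the fixed places. -/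
noncomputable def bad {F : Type} [Field F] (a : Fin 3 → F[X]) (d : F[X]) : F[X] :=
  d * ((a 0 - a 1) * (a 0 - a 2) * (a 1 - a 2))

/-- The fixed places. -/
def Sok {F : Type} [Field F] (a : Fin 3 → F[X]) (d : F[X]) (S : Finset (Pl F)) : Prop :=
  ∀ w, w ∈ S ↔ w = none ∨ ∃ P, w = some P ∧ P.1 ∣ bad a d

/-- The largest degree of an `a i - a j`. -/
noncomputable def mxd {F : Type} [Field F] (a : Fin 3 → F[X]) : ℕ :=
  univ.sup fun i : Fin 3 => univ.sup fun j : Fin 3 => (a i - a j).natDegree

/-- The element of `F(t)` belonging to a place (`1` at infinity). -/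
noncomputable def piP {F : Type} [Field F] (w : Pl F) : RatFunc F :=
  match w with
  | none => 1
  | some P => algebraMap F[X] (RatFunc F) P.1

/-- THE DATUM. -/
noncomputable def DD (F : Type) [Field F] (a : Fin 3 → F[X]) (d : F[X]) (u : F) (S : Finset (Pl F))
    (A : Pl F → Lcd F) : Dat (GQ F) (C.NN (aR a) (Qf F)) (Pl F) where
  S := S
  inf := none
  tau w := (A w).rQ (A w).t
  phi w := (A w).rQ (A w).f
  nq w := Nat.card F ^ dgP w.o
  ch w := hK (piP w)
  cst := hK (RatFunc.C u)
  ch0 := hK (algebraMap F[X] (RatFunc F) d)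
  e := C.eN

/-- The places of degree `n` outside `S`. -/
noncomputable def irr (F : Type) [Field F] (S : Finset (Pl F)) (n : ℕ) : Finset (Pl F) :=
  open Classical in
  if h : {w | w ∈ SF.Irs F n ∧ w ∉ S}.Finite then h.toFinset else ∅

/-- The parity condition on the degrees (tameness at infinity). -/
def Adm {F : Type} [Field F] (a : Fin 3 → F[X]) (d : F[X]) (r : ℕ) (n : Fin (r + 1) → ℕ) : Prop :=
  Odd (d.natDegree + ∑ i, n i + mxd a)

end Pool.Agent.MP72S.HD
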