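import Pool.Agent.Lib.MP_72e2e6_nt.Sm.H.Fin

/-!
# MP_72e2e6_nt, `Sm/H/GO`: the global hypotheses of block S
-/

set_option autoImplicit false

namespace Pool.Agent.MP72S.HD

open Polynomial Finset Pool.Agent.MP72W Pool.Agent.MP72S.D

private theorem GO_two {F : Type} [Field F] [Finite F] (h : Nat.card F % 4 = 1) : (2 : F) ≠ 0 := by
  intro h2
  have : Fintype F := Fintype.ofFinite F
  have h3 : ringChar F = 2 := by
    have h4 : ringChar F ∣ 2 := ringChar.dvd (by exact_mod_cast h2)
    rcases (Nat.dvd_prime Nat.prime_two).1 h4 with h5 | h5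
    · have h6 := CharP.ringChar_ne_one (R := F)
      exact absurd h5 h6
    · exact h5
  have h4 := FiniteField.even_card_of_char_two h3
  rw [← Nat.card_eq_fintype_card] at h4
  omega

private theorem GO_sqf {F : Type} [Field F] {d : F[X]} (h : Squarefree d) : d ≠ 0 := h.ne_zero

theorem tGO (h : MP72S.S.S_Gok) : S_GO := by
  intro F _ _ a d u S A hH hL
  have hinj : Function.Injective (aR a) := fun i j hij => hH.inj (RatFunc.algebraMap_injective F hij)
  have hd0 : algebraMap F[X] (RatFunc F) d ≠ 0 := RatFunc.algebraMap_ne_zero (GO_sqf hH.sqf)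
  have h1 := h F A (GO_two hH.q4) hL (aR a) hinj (DD F a d u S A) (algebraMap F[X] (RatFunc F) d)
    rfl (fun _ => rfl) (fun _ => rfl) (fun _ => rfl) rfl hd0
  have h2 : (piP : Pl F → RatFunc F) = fun w => match w with
      | none => 1
      | some P => algebraMap F[X] (RatFunc F) P.1 := by
    funext w
    cases w <;> rfl
  rw [h2]
  exact h1

end Pool.Agent.MP72S.HD
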